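import Pool.Agent.TH430.Lin.Count

/-!
# Lineons: approximate constraints for finite models
-/

set_option autoImplicit false

namespace Pool.Agent.TH430.Lin

open Finset Topology

/-- restriction to the first `k` vertices -/
def resL {k l : ℕ} (H : Model (Fin (k + l))) : Model (Fin k) := pull (Fin.castAddEmb l) H

/-- restriction to the last `l` vertices -/
def resR {k l : ℕ} (H : Model (Fin (k + l))) : Model (Fin l) := pull (Fin.natAddEmb k) H

section prod
variable {k l : ℕ} {V : Type} [Fintype V]

/-- split an embedding into two -/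
def split (θ : Fin (k + l) ↪ V) : (Fin k ↪ V) × (Fin l ↪ V) :=
  ((Fin.castAddEmb l).trans θ, (Fin.natAddEmb k).trans θ)

omit [Fintype V] in
lemma split_injective : Function.Injective (split : (Fin (k + l) ↪ V) → _) := by
  intro θ θ' h
  unfold split at h
  rw [Prod.mk.injEq] at h
  ext i
  refine Fin.addCases (fun a => ?_) (fun b => ?_) i
  · exact DFunLike.congr_fun h.1 a
  · exact DFunLike.congr_fun h.2 b

open Classical in
lemma sum_res (F : Model (Fin k)) (G : Model (Fin l)) (N : Model V) :
    (∑ H : Model (Fin (k + l)), if resL H = F ∧ resR H = G then cnt H N else 0) =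
      (univ.filter (fun θ : Fin (k + l) ↪ V =>
        pull (split θ).1 N = F ∧ pull (split θ).2 N = G)).card := by
  rw [Finset.card_eq_sum_card_fiberwise (f := fun θ : Fin (k + l) ↪ V => pull θ N)
    (t := (univ : Finset (Model (Fin (k + l)))))]
  · refine Finset.sum_congr rfl fun H _ => ?_
    unfold cnt
    have hL : ∀ θ : Fin (k + l) ↪ V, pull (split θ).1 N = resL (pull θ N) := fun θ => by
      unfold split resL
      rw [pull_pull]
    have hR : ∀ θ : Fin (k + l) ↪ V, pull (split θ).2 N = resR (pull θ N) := fun θ => by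
      unfold split resR
      rw [pull_pull]
    split_ifs with h
    · congr 1
      ext θ
      simp only [mem_filter, mem_univ, true_and]
      constructor
      · intro h'
        exact ⟨by rw [hL, hR, h']; exact h, h'⟩
      · exact fun h' => h'.2
    · symm
      rw [Finset.card_eq_zero, Finset.filter_eq_empty_iff]
      intro θ hθ
      simp only [mem_filter, mem_univ, true_and] at hθ
      intro h'
      apply h
      rw [← h', ← hL, ← hR]
      exact hθ
  · intro x _
    simp

lemma card_emb (k : ℕ) (V : Type) [Fintype V] :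
    (univ : Finset (Fin k ↪ V)).card = (Fintype.card V).descFactorial k := by
  rw [Finset.card_univ, Fintype.card_embedding_eq, Fintype.card_fin]

open Classical in
lemma prod_bounds (F : Model (Fin k)) (G : Model (Fin l)) (N : Model V) :
    (∑ H : Model (Fin (k + l)), if resL H = F ∧ resR H = G then cnt H N else 0) ≤
      cnt F N * cnt G N ∧
    cnt F N * cnt G N + (Fintype.card V).descFactorial (k + l) ≤
      (∑ H : Model (Fin (k + l)), if resL H = F ∧ resR H = G then cnt H N else 0) +
      (Fintype.card V).descFactorial k * (Fintype.card V).descFactorial l := by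
  rw [sum_res]
  set B := univ.filter (fun θ : Fin (k + l) ↪ V =>
        pull (split θ).1 N = F ∧ pull (split θ).2 N = G) with hB
  set P : Finset ((Fin k ↪ V) × (Fin l ↪ V)) :=
    (univ.filter (fun φ => pull φ N = F)) ×ˢ (univ.filter (fun φ => pull φ N = G)) with hP
  have hPc : P.card = cnt F N * cnt G N := by
    rw [hP, Finset.card_product]; rfl
  set I : Finset ((Fin k ↪ V) × (Fin l ↪ V)) := univ.image split with hI
  have hIc : I.card = (Fintype.card V).descFactorial (k + l) := by
    rw [hI, Finset.card_image_of_injective _ split_injective, card_emb]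
  have hBI : B.image split = P ∩ I := by
    ext ⟨a, b⟩
    simp only [hB, hP, hI, mem_image, mem_filter, mem_univ, true_and, mem_inter, mem_product]
    constructor
    · rintro ⟨θ, h1, h2⟩
      rw [h2] at h1
      exact ⟨h1, θ, h2⟩
    · rintro ⟨h1, θ, h2⟩
      refine ⟨θ, ?_, h2⟩
      rw [h2]
      exact h1
  have hBc : B.card = (P ∩ I).card := by
    rw [← hBI, Finset.card_image_of_injective _ split_injective]
  have hall : (univ : Finset ((Fin k ↪ V) × (Fin l ↪ V))).card =
      (Fintype.card V).descFactorial k * (Fintype.card V).descFactorial l := by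
    rw [← Finset.univ_product_univ, Finset.card_product, card_emb, card_emb]
  refine ⟨?_, ?_⟩
  · rw [hBc, ← hPc]
    exact Finset.card_le_card Finset.inter_subset_left
  · rw [hBc, ← hPc, ← hIc, ← hall, ← Finset.card_union_add_card_inter P I, add_comm]
    exact Nat.add_le_add_left (Finset.card_le_card (Finset.subset_univ _)) _

open Classical in
lemma prod_approx (F : Model (Fin k)) (G : Model (Fin l)) (N : Model V)
    (h : k + l ≤ Fintype.card V) :
    |(∑ H : Model (Fin (k + l)), if resL H = F ∧ resR H = G then tt H N else 0) -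
      tt F N * tt G N| ≤
    1 - ((Fintype.card V).descFactorial (k + l) : ℝ) /
      ((Fintype.card V).descFactorial k * (Fintype.card V).descFactorial l) := by
  obtain ⟨h1, h2⟩ := prod_bounds F G N
  set Θ : ℝ := ((Fintype.card V).descFactorial (k + l) : ℝ) with hΘ
  set P : ℝ := ((Fintype.card V).descFactorial k * (Fintype.card V).descFactorial l : ℝ) with hP
  set b : ℕ := ∑ H : Model (Fin (k + l)), if resL H = F ∧ resR H = G then cnt H N else 0 with hb
  set a : ℕ := cnt F N * cnt G N with ha
  have hΘ0 : 0 < Θ := by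
    have := Nat.descFactorial_pos.2 h
    rw [hΘ]
    exact_mod_cast this
  have hP0 : 0 < P := by
    have h3 := Nat.descFactorial_pos.2 (show k ≤ Fintype.card V by omega)
    have h4 := Nat.descFactorial_pos.2 (show l ≤ Fintype.card V by omega)
    rw [hP]
    exact_mod_cast Nat.mul_pos h3 h4
  have hs : (∑ H : Model (Fin (k + l)), if resL H = F ∧ resR H = G then tt H N else 0) =
      b / Θ := by
    rw [hb]
    push_cast
    rw [Finset.sum_div]
    refine Finset.sum_congr rfl fun H _ => ?_
    split_ifs
    · rfl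
    · simp
  have hp : tt F N * tt G N = a / P := by
    unfold tt
    rw [ha, hP, div_mul_div_comm]
    push_cast
    rfl
  have h1' : (b : ℝ) ≤ a := by exact_mod_cast h1
  have h2' : (a : ℝ) + Θ ≤ b + P := by
    rw [hΘ, hP]
    exact_mod_cast h2
  have h3' : (b : ℝ) ≤ Θ := by
    rw [hb, hΘ]
    have := sum_cnt (k + l) N
    have h5 : (∑ H : Model (Fin (k + l)), if resL H = F ∧ resR H = G then cnt H N else 0) ≤
        ∑ H : Model (Fin (k + l)), cnt H N := by
      refine Finset.sum_le_sum fun H _ => ?_
      split_ifs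
      · exact le_rfl
      · exact Nat.zero_le _
    rw [this] at h5
    exact_mod_cast h5
  have hΘP : Θ ≤ P := by
    nlinarith
  rw [hs, hp]
  have hb0 : (0 : ℝ) ≤ b := Nat.cast_nonneg _
  rw [abs_le]
  constructor
  · have e1 : (b : ℝ) / P ≤ b / Θ := div_le_div_of_nonneg_left hb0 hΘ0 hΘP
    have e2 : (a : ℝ) / P - b / P ≤ 1 - Θ / P := by
      rw [← sub_div, one_sub_div hP0.ne']
      exact div_le_div_of_nonneg_right (by linarith) hP0.le
    linarith
  · have e1 : (b : ℝ) / P ≤ a / P := by gcongr
    have e2 : (b : ℝ) / Θ - b / P ≤ 1 - Θ / P := by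
      have : (b : ℝ) / Θ - b / P = b / Θ * (1 - Θ / P) := by
        field_simp
      rw [this]
      have h6 : (b : ℝ) / Θ ≤ 1 := (div_le_one hΘ0).2 h3'
      have h7 : 0 ≤ 1 - Θ / P := by
        rw [sub_nonneg]; exact (div_le_one hP0).2 hΘP
      nlinarith
    linarith

end prod

/-! ### Linear independence over `F_2` -/

/-- the vertex set of the linear models -/
abbrev Vm (m : ℕ) := Fin m → ZMod 2

lemma card_Vm (m : ℕ) : Fintype.card (Vm m) = 2 ^ m := by simp

/-- no nonempty subfamily sums to zero -/
def Indep {k m : ℕ} (φ : Fin k → Vm m) : Prop :=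
  ∀ S : Finset (Fin k), S.Nonempty → ∑ i ∈ S, φ i ≠ 0

lemma zmod2_cases (a : ZMod 2) : a = 0 ∨ a = 1 := by
  revert a; decide

lemma indep_iff {k m : ℕ} (φ : Fin k → Vm m) : Indep φ ↔ LinearIndependent (ZMod 2) φ := by
  rw [linearIndependent_iff']
  constructor
  · intro h s g hg i hi
    by_contra hne
    have h1 : ∑ j ∈ s.filter (fun j => g j ≠ 0), φ j = 0 := by
      have h2 : ∑ j ∈ s.filter (fun j => g j ≠ 0), φ j = ∑ i ∈ s, g i • φ i := by
        rw [Finset.sum_filter]
        refine Finset.sum_congr rfl fun j _ => ?_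
        rcases zmod2_cases (g j) with h0 | h0 <;> simp [h0]
      rw [h2, hg]
    exact h _ ⟨i, by simp [hi, hne]⟩ h1
  · rintro h S ⟨i, hi⟩ hS
    have := h S (fun _ => 1) (by simpa using hS) i hi
    exact one_ne_zero this

lemma Indep.injective {k m : ℕ} {φ : Fin k → Vm m} (h : Indep φ) : Function.Injective φ :=
  ((indep_iff φ).1 h).injective

/-- number of independent `k`-tuples in `F_2^m` -/
def indCount (k m : ℕ) : ℕ := ∏ i : Fin k, (2 ^ m - 2 ^ i.val)

open Classical in
lemma card_indep {k m : ℕ} (hk : k ≤ m) :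
    (univ.filter (fun φ : Fin k → Vm m => Indep φ)).card = indCount k m := by
  have h := card_linearIndependent (K := ZMod 2) (V := Vm m) (k := k) (by simpa using hk)
  unfold indCount
  simp only [ZMod.card, Module.finrank_fin_fun] at h
  rw [← h, Nat.card_eq_fintype_card, Fintype.card_subtype]
  congr 1
  ext φ
  simp [indep_iff]

open Classical in
lemma card_indep_emb {k m : ℕ} (hk : k ≤ m) :
    (univ.filter (fun φ : Fin k ↪ Vm m => Indep φ)).card = indCount k m := by
  rw [← card_indep hk]
  refine Finset.card_bij (fun φ _ => (φ : Fin k → Vm m)) ?_ ?_ ?_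
  · intro φ hφ
    simpa using hφ
  · intro φ _ ψ _ h
    exact DFunLike.coe_injective h
  · intro φ hφ
    simp only [mem_filter, mem_univ, true_and] at hφ
    exact ⟨⟨φ, hφ.injective⟩, by simpa using hφ, rfl⟩

/-! ### Transvections -/

/-- the action of the transvection `x_i ↦ x_i + x_j` on sets -/
def tws {k : ℕ} (i j : Fin k) (S : Finset (Fin k)) : Finset (Fin k) :=
  if i ∈ S then (if j ∈ S then S.erase j else insert j S) else S

lemma tws_nonempty {k : ℕ} {i j : Fin k} (hij : i ≠ j) {S : Finset (Fin k)} (hS : S.Nonempty) :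
    (tws i j S).Nonempty := by
  unfold tws
  split_ifs with h1 h2
  · exact ⟨i, Finset.mem_erase.2 ⟨hij, h1⟩⟩
  · exact ⟨j, Finset.mem_insert_self _ _⟩
  · exact hS

/-- the action of the transvection `x_i ↦ x_i + x_j` on labelled models -/
def tw {k : ℕ} (i j : Fin k) (hij : i ≠ j) (F : Model (Fin k)) : Model (Fin k) :=
  fun S => F ⟨tws i j S.1, tws_nonempty hij S.2⟩

lemma two_add {m : ℕ} (a : Vm m) : a + a = 0 := by
  funext i
  exact CharTwo.add_self_eq_zero (a i)

lemma sum_update {k m : ℕ} (φ : Fin k → Vm m) {i j : Fin k} (hij : i ≠ j)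
    (S : Finset (Fin k)) :
    ∑ t ∈ S, Function.update φ i (φ i + φ j) t = ∑ t ∈ tws i j S, φ t := by
  classical
  unfold tws
  split_ifs with h1 h2
  · rw [Finset.sum_update_of_mem h1, Finset.sdiff_singleton_eq_erase]
    have e1 := Finset.add_sum_erase S φ h1
    have e2 := Finset.add_sum_erase S φ h2
    calc φ i + φ j + ∑ x ∈ S.erase i, φ x = φ j + (φ i + ∑ x ∈ S.erase i, φ x) := by abel
      _ = φ j + (φ j + ∑ x ∈ S.erase j, φ x) := by rw [e1, e2]
      _ = (φ j + φ j) + ∑ x ∈ S.erase j, φ x := by abel
      _ = _ := by rw [two_add, zero_add]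
  · rw [Finset.sum_update_of_mem h1, Finset.sdiff_singleton_eq_erase, Finset.sum_insert h2,
      ← Finset.add_sum_erase S φ h1]
    abel
  · refine Finset.sum_congr rfl fun t ht => ?_
    rw [Function.update_of_ne]
    rintro rfl
    exact h1 ht

lemma Indep.update {k m : ℕ} {φ : Fin k → Vm m} (h : Indep φ) {i j : Fin k} (hij : i ≠ j) :
    Indep (Function.update φ i (φ i + φ j)) := by
  intro S hS
  rw [sum_update φ hij]
  exact h _ (tws_nonempty hij hS)

lemma update_update_self {k m : ℕ} (φ : Fin k → Vm m) {i j : Fin k} (hij : i ≠ j) :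
    Function.update (Function.update φ i (φ i + φ j)) i
      (Function.update φ i (φ i + φ j) i + Function.update φ i (φ i + φ j) j) = φ := by
  funext t
  by_cases ht : t = i
  · subst ht
    rw [Function.update_self, Function.update_self, Function.update_of_ne hij.symm, add_assoc,
      two_add, add_zero]
  · rw [Function.update_of_ne ht, Function.update_of_ne ht]

lemma pull_linModel {k m : ℕ} (φ : Fin k ↪ Vm m) (A : Finset (Vm m)) (S : Edge (Fin k)) :
    pull φ (linModel A) S = decide (∑ i ∈ S.1, φ i ∈ A) := by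
  simp [pull, linModel, Edge.map]

open Classical in
/-- number of independent embeddings with given induced model -/
noncomputable def cntI {k : ℕ} (F : Model (Fin k)) {m : ℕ} (N : Model (Vm m)) : ℕ :=
  (univ.filter (fun φ : Fin k ↪ Vm m => Indep φ ∧ pull φ N = F)).card

lemma cntI_le {k m : ℕ} (F : Model (Fin k)) (N : Model (Vm m)) : cntI F N ≤ cnt F N := by
  classical
  unfold cntI cnt
  apply Finset.card_le_card
  intro φ hφ
  simp only [mem_filter, mem_univ, true_and] at hφ ⊢
  exact hφ.2

lemma cnt_le_cntI {k m : ℕ} (hk : k ≤ m) (F : Model (Fin k)) (N : Model (Vm m)) :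
    cnt F N + indCount k m ≤ cntI F N + (2 ^ m).descFactorial k := by
  classical
  have h1 : (univ : Finset (Fin k ↪ Vm m)).card = (2 ^ m).descFactorial k := by
    rw [card_emb, card_Vm]
  rw [← h1, ← card_indep_emb hk]
  set A : Finset (Fin k ↪ Vm m) := univ.filter (fun φ => pull φ N = F) with hA
  set B : Finset (Fin k ↪ Vm m) := univ.filter (fun φ => Indep φ) with hB
  have h2 : cntI F N = (A ∩ B).card := by
    unfold cntI
    congr 1
    ext φ
    simp [hA, hB, and_comm]
  have h3 : cnt F N = A.card := rfl
  rw [h2, h3, ← Finset.card_union_add_card_inter A B, add_comm]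
  exact Nat.add_le_add_left (Finset.card_le_card (Finset.subset_univ _)) _

lemma cntI_tw {k m : ℕ} {i j : Fin k} (hij : i ≠ j) (F : Model (Fin k)) (A : Finset (Vm m)) :
    cntI (tw i j hij F) (linModel A) = cntI F (linModel A) := by
  classical
  unfold cntI
  have hup : ∀ φ : Fin k ↪ Vm m, (hφ : Indep φ) →
      Function.Injective (Function.update φ i (φ i + φ j)) := fun φ hφ =>
    (hφ.update hij).injective
  have hpull : ∀ (φ : Fin k ↪ Vm m) (hφ : Indep φ) (G : Model (Fin k)),
      pull φ (linModel A) = G →
      pull ⟨Function.update φ i (φ i + φ j), hup φ hφ⟩ (linModel A) = tw i j hij G := by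
    intro φ hφ G hG
    funext S
    rw [pull_linModel]
    show decide (∑ t ∈ S.1, Function.update (⇑φ) i (φ i + φ j) t ∈ A) = _
    rw [sum_update φ hij]
    unfold tw
    rw [← hG, pull_linModel]
  have htw : ∀ G : Model (Fin k), tw i j hij (tw i j hij G) = G := by
    intro G
    funext S
    unfold tw
    congr 1
    apply Subtype.ext
    show tws i j (tws i j S.1) = S.1
    unfold tws
    by_cases h1 : i ∈ S.1 <;> by_cases h2 : j ∈ S.1 <;>
      simp [h1, h2, hij]
  refine Finset.card_bij'
    (fun φ hφ => ⟨Function.update φ i (φ i + φ j),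
      hup φ (by simp only [mem_filter, mem_univ, true_and] at hφ; exact hφ.1)⟩)
    (fun φ hφ => ⟨Function.update φ i (φ i + φ j),
      hup φ (by simp only [mem_filter, mem_univ, true_and] at hφ; exact hφ.1)⟩)
    ?_ ?_ ?_ ?_
  · intro φ hφ
    simp only [mem_filter, mem_univ, true_and] at hφ ⊢
    refine ⟨hφ.1.update hij, ?_⟩
    rw [hpull φ hφ.1 _ hφ.2, htw]
  · intro φ hφ
    simp only [mem_filter, mem_univ, true_and] at hφ ⊢
    exact ⟨hφ.1.update hij, hpull φ hφ.1 _ hφ.2⟩
  · intro φ hφ
    apply DFunLike.coe_injective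
    exact update_update_self φ hij
  · intro φ hφ
    apply DFunLike.coe_injective
    exact update_update_self φ hij

lemma tw_approx {k m : ℕ} (hk : k ≤ m) {i j : Fin k} (hij : i ≠ j) (F : Model (Fin k))
    (A : Finset (Vm m)) :
    |tt (tw i j hij F) (linModel A) - tt F (linModel A)| ≤
      1 - (indCount k m : ℝ) / (2 ^ m).descFactorial k := by
  have h1 := cntI_le F (linModel A)
  have h2 := cntI_le (tw i j hij F) (linModel A)
  have h3 := cnt_le_cntI hk F (linModel A)
  have h4 := cnt_le_cntI hk (tw i j hij F) (linModel A)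
  rw [cntI_tw hij] at h2 h4
  have hm : k ≤ 2 ^ m := hk.trans (Nat.lt_two_pow_self).le
  have hD : (0 : ℝ) < (2 ^ m).descFactorial k := by
    have := Nat.descFactorial_pos.2 hm
    exact_mod_cast this
  unfold tt
  rw [card_Vm, ← sub_div, abs_div, abs_of_pos hD, one_sub_div hD.ne']
  refine div_le_div_of_nonneg_right ?_ hD.le
  have h1' : (cntI F (linModel A) : ℝ) ≤ cnt F (linModel A) := by exact_mod_cast h1
  have h2' : (cntI F (linModel A) : ℝ) ≤ cnt (tw i j hij F) (linModel A) := by exact_mod_cast h2
  have h3' : (cnt F (linModel A) : ℝ) + indCount k m ≤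
    cntI F (linModel A) + (2 ^ m).descFactorial k := by exact_mod_cast h3
  have h4' : (cnt (tw i j hij F) (linModel A) : ℝ) + indCount k m ≤
    cntI F (linModel A) + (2 ^ m).descFactorial k := by exact_mod_cast h4
  rw [abs_le]
  constructor <;> linarith

end Pool.Agent.TH430.Lin
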