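import Pool.Agent.TH430.Lin.Topo

/-!
# Lineons: coding of labelled models by natural numbers
-/

set_option autoImplicit false

namespace Pool.Agent.TH430.Lin

open Finset

/-- the binary code of a set of vertices -/
def mask {k : ℕ} (S : Finset (Fin k)) : ℕ := ∑ i ∈ S, 2 ^ i.val

lemma mask_eq {k : ℕ} (S : Finset (Fin k)) : mask S = ∑ i ∈ S.map Fin.valEmbedding, 2 ^ i := by
  rw [Finset.sum_map]; rfl

lemma mask_testBit' {k : ℕ} (S : Finset (Fin k)) (j : ℕ) :
    (mask S).testBit j = true ↔ j ∈ S.map Fin.valEmbedding := by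
  have h := Finset.toFinset_bitIndices_sum_two_pow (S.map Fin.valEmbedding)
  rw [← mask_eq] at h
  conv_rhs => rw [← h]
  rw [List.mem_toFinset, Nat.mem_bitIndices]

lemma mask_testBit {k : ℕ} (S : Finset (Fin k)) (i : Fin k) :
    (mask S).testBit i.val = true ↔ i ∈ S := by
  rw [mask_testBit']
  simp only [mem_map, Fin.valEmbedding_apply]
  constructor
  · rintro ⟨a, ha, h⟩
    rwa [← Fin.ext h]
  · intro h
    exact ⟨i, h, rfl⟩

lemma mask_pos {k : ℕ} {S : Finset (Fin k)} (hS : S.Nonempty) : 0 < mask S :=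
  Finset.sum_pos (fun i _ => by positivity) hS

lemma mask_lt {k : ℕ} (S : Finset (Fin k)) : mask S < 2 ^ k := by
  apply Nat.lt_pow_two_of_testBit
  intro i hi
  by_contra h
  rw [Bool.not_eq_false] at h
  rw [mask_testBit'] at h
  simp only [mem_map, Fin.valEmbedding_apply] at h
  obtain ⟨a, -, rfl⟩ := h
  omega

lemma mask_surj {k s : ℕ} (hs : s < 2 ^ k) (h0 : s ≠ 0) :
    ∃ S : Edge (Fin k), mask S.1 = s := by
  set S : Finset (Fin k) := univ.filter (fun i => s.testBit i.val = true) with hS
  have h1 : mask S = s := by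
    apply Nat.eq_of_testBit_eq
    intro j
    rw [Bool.eq_iff_iff, mask_testBit']
    simp only [hS, mem_map, mem_filter, mem_univ, true_and, Fin.valEmbedding_apply]
    constructor
    · rintro ⟨a, ha, rfl⟩
      exact ha
    · intro hj
      have : j < k := by
        by_contra hjk
        have := Nat.testBit_lt_two_pow (lt_of_lt_of_le hs (Nat.pow_le_pow_right (by norm_num)
          (not_lt.1 hjk)))
        rw [this] at hj
        exact Bool.false_ne_true hj
      exact ⟨⟨j, this⟩, hj, rfl⟩
  refine ⟨⟨S, ?_⟩, h1⟩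
  by_contra h2
  rw [Finset.not_nonempty_iff_eq_empty] at h2
  apply h0
  rw [← h1, h2]
  simp [mask]

/-- the digit of a code which tells whether the edge with binary code `s` is present -/
def bitAt (c s : ℕ) : Bool := c.testBit (s - 1)

lemma codeModel_apply (k c : ℕ) (S : Edge (Fin k)) : codeModel k c S = bitAt c (mask S.1) := rfl

lemma forall_mask {k : ℕ} {P : ℕ → Prop} :
    (∀ s < 2 ^ k, s ≠ 0 → P s) ↔ ∀ S : Edge (Fin k), P (mask S.1) := by
  constructor
  · intro h S
    exact h _ (mask_lt _) (mask_pos S.2).ne'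
  · intro h s hs h0
    obtain ⟨S, rfl⟩ := mask_surj hs h0
    exact h S

lemma mask_injective {k : ℕ} : Function.Injective (mask : Finset (Fin k) → ℕ) := by
  intro S T h
  ext i
  rw [← mask_testBit, ← mask_testBit, h]

/-! ### transvections -/

/-- action of a transvection on binary codes of sets -/
def twm (i j s : ℕ) : ℕ :=
  if s.testBit i = true then (if s.testBit j = true then s - 2 ^ j else s + 2 ^ j) else s

lemma mask_tws {k : ℕ} (i j : Fin k) (S : Finset (Fin k)) :
    mask (tws i j S) = twm i.val j.val (mask S) := by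
  unfold tws twm
  simp only [mask_testBit]
  split_ifs with h1 h2
  · have : 2 ^ j.val + mask (S.erase j) = mask S :=
      Finset.add_sum_erase S (fun i : Fin k => 2 ^ i.val) h2
    omega
  · unfold mask
    rw [Finset.sum_insert h2, add_comm]
  · rfl

/-- the code `c'` describes the transvected model of `c` -/
def IsTw (k i j c c' : ℕ) : Prop := ∀ s < 2 ^ k, s ≠ 0 → bitAt c' s = bitAt c (twm i j s)

lemma isTw_iff {k c c' : ℕ} {i j : Fin k} (hij : i ≠ j) :
    IsTw k i j c c' ↔ codeModel k c' = tw i j hij (codeModel k c) := by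
  unfold IsTw
  rw [forall_mask (P := fun s => bitAt c' s = bitAt c (twm i j s))]
  rw [funext_iff]
  refine forall_congr' fun S => ?_
  rw [codeModel_apply]
  unfold tw
  rw [codeModel_apply, mask_tws]

/-! ### restrictions -/

lemma mask_castAdd {k l : ℕ} (S : Finset (Fin k)) : mask (S.map (Fin.castAddEmb l)) = mask S := by
  unfold mask
  rw [Finset.sum_map]
  rfl

lemma mask_natAdd {k l : ℕ} (S : Finset (Fin l)) :
    mask (S.map (Fin.natAddEmb k)) = mask S * 2 ^ k := by
  unfold mask
  rw [Finset.sum_map, Finset.sum_mul]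
  refine Finset.sum_congr rfl fun i _ => ?_
  show 2 ^ (k + i.val) = _
  rw [pow_add, mul_comm]

/-- the code `h` restricts to the code `a` on the first `k` and to `b` on the last `l` vertices -/
def IsRes (k l a b h : ℕ) : Prop :=
  (∀ s < 2 ^ k, s ≠ 0 → bitAt h s = bitAt a s) ∧
  (∀ s < 2 ^ l, s ≠ 0 → bitAt h (s * 2 ^ k) = bitAt b s)

lemma isRes_iff {k l a b h : ℕ} :
    IsRes k l a b h ↔ resL (codeModel (k + l) h) = codeModel k a ∧
      resR (codeModel (k + l) h) = codeModel l b := by
  unfold IsRes
  rw [forall_mask (P := fun s => bitAt h s = bitAt a s),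
    forall_mask (P := fun s => bitAt h (s * 2 ^ k) = bitAt b s), funext_iff, funext_iff]
  refine and_congr (forall_congr' fun S => ?_) (forall_congr' fun S => ?_)
  · rw [codeModel_apply k a]
    show _ ↔ bitAt h (mask (S.1.map (Fin.castAddEmb l))) = _
    rw [mask_castAdd]
  · rw [codeModel_apply l b]
    show _ ↔ bitAt h (mask (S.1.map (Fin.natAddEmb k))) = _
    rw [mask_natAdd]

/-! ### isomorphism -/

/-- digit number `i` of `p` in base `k` -/
def dig (k p i : ℕ) : ℕ := p / k ^ i % k

/-- action of the map coded by `p` on binary codes of sets -/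
def pm (k p s : ℕ) : ℕ := ∑ i ∈ range k, if s.testBit i = true then 2 ^ dig k p i else 0

/-- the codes `c` and `c'` describe isomorphic models -/
def IsIso (k c c' : ℕ) : Prop :=
  ∃ p < k ^ k, (∀ i < k, ∀ j < k, dig k p i = dig k p j → i = j) ∧
    ∀ s < 2 ^ k, s ≠ 0 → bitAt c' s = bitAt c (pm k p s)

lemma mask_pm {k p : ℕ} (e : Fin k → Fin k) (hinj : Function.Injective e)
    (he : ∀ i, (e i).val = dig k p i.val)
    (S : Finset (Fin k)) : mask (S.map ⟨e, hinj⟩) = pm k p (mask S) := by
  unfold pm
  rw [Finset.sum_range]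
  simp only [mask_testBit]
  rw [← Finset.sum_filter]
  unfold mask
  rw [Finset.sum_map]
  refine Finset.sum_congr (by ext; simp) fun i _ => ?_
  rw [← he]
  rfl

lemma isIso_iff {k c c' : ℕ} :
    IsIso k c c' ↔ ∃ e : Fin k ≃ Fin k, pull e.toEmbedding (codeModel k c) = codeModel k c' := by
  constructor
  · rintro ⟨p, hp, hinj, h⟩
    set f : Fin k → Fin k := finFunctionFinEquiv.symm ⟨p, hp⟩ with hf
    have hfi : ∀ i, (f i).val = dig k p i.val := fun i => rfl
    have hfinj : Function.Injective f := by
      intro i j hij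
      apply Fin.ext
      apply hinj i.val i.2 j.val j.2
      rw [← hfi, ← hfi, hij]
    refine ⟨Equiv.ofBijective f (Finite.injective_iff_bijective.1 hfinj), ?_⟩
    rw [forall_mask (P := fun s => bitAt c' s = bitAt c (pm k p s))] at h
    funext S
    show bitAt c (mask (S.1.map _)) = _
    rw [codeModel_apply, h S, ← mask_pm f hfinj hfi]
    rfl
  · rintro ⟨e, he⟩
    have hfi : ∀ i, (e i).val = dig k (finFunctionFinEquiv (e : Fin k → Fin k)).val i.val := by
      intro i
      have h1 : finFunctionFinEquiv.symm (finFunctionFinEquiv (e : Fin k → Fin k)) i = e i := by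
        rw [Equiv.symm_apply_apply]
      rw [← h1]
      rfl
    refine ⟨(finFunctionFinEquiv (e : Fin k → Fin k)).val, (finFunctionFinEquiv _).2, ?_, ?_⟩
    · intro i hi j hj hij
      have h2 := hfi ⟨i, hi⟩
      have h3 := hfi ⟨j, hj⟩
      have h4 : e ⟨i, hi⟩ = e ⟨j, hj⟩ := Fin.ext (by rw [h2, h3]; exact hij)
      exact Fin.mk.inj_iff.1 (e.injective h4)
    · rw [forall_mask (P := fun s => bitAt c' s = bitAt c (pm k _ s))]
      intro S
      rw [← codeModel_apply, ← he, ← mask_pm e e.injective hfi]
      rfl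

/-! ### counting -/

/-- the number of codes of labelled models on `k` vertices -/
def numCodes (k : ℕ) : ℕ := 2 ^ (2 ^ k - 1)

lemma card_edge (k : ℕ) : Fintype.card (Edge (Fin k)) = 2 ^ k - 1 := by
  have h1 : Fintype.card {S : Finset (Fin k) // ¬ S.Nonempty} = 1 := by
    rw [Fintype.card_eq_one_iff]
    exact ⟨⟨∅, by simp⟩, fun S => Subtype.ext (Finset.not_nonempty_iff_eq_empty.1 S.2)⟩
  have h2 := Fintype.card_subtype_compl (fun S : Finset (Fin k) => S.Nonempty)
  have h3 := Fintype.card_subtype_le (fun S : Finset (Fin k) => S.Nonempty)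
  rw [Fintype.card_finset, Fintype.card_fin] at h2 h3
  have h4 : Fintype.card (Edge (Fin k)) = Fintype.card {S : Finset (Fin k) // S.Nonempty} := rfl
  rw [h4]
  omega

lemma codeModel_inj {k c c' : ℕ} (hc : c < numCodes k) (hc' : c' < numCodes k)
    (h : codeModel k c = codeModel k c') : c = c' := by
  apply Nat.eq_of_testBit_eq
  intro j
  by_cases hj : j < 2 ^ k - 1
  · obtain ⟨S, hS⟩ := mask_surj (k := k) (s := j + 1) (by omega) (by omega)
    have := congrFun h S
    rw [codeModel_apply, codeModel_apply, hS] at this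
    exact this
  · have h1 : 2 ^ (2 ^ k - 1) ≤ 2 ^ j := Nat.pow_le_pow_right (by norm_num) (by omega)
    rw [Nat.testBit_lt_two_pow (lt_of_lt_of_le hc h1),
      Nat.testBit_lt_two_pow (lt_of_lt_of_le hc' h1)]

lemma codeModel_bij (k : ℕ) :
    Function.Bijective (fun c : Fin (numCodes k) => codeModel k c.val) := by
  rw [Fintype.bijective_iff_injective_and_card]
  refine ⟨fun c c' h => Fin.ext (codeModel_inj c.2 c'.2 h), ?_⟩
  rw [Fintype.card_fin, Fintype.card_fun, Fintype.card_bool, card_edge]
  rfl

lemma sum_codes {M : Type} [AddCommMonoid M] (k : ℕ) (g : Model (Fin k) → M) :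
    ∑ c ∈ range (numCodes k), g (codeModel k c) = ∑ H : Model (Fin k), g H := by
  rw [Finset.sum_range]
  exact (codeModel_bij k).sum_comp g

open Classical in
/-- the number of labelled models isomorphic to the model coded by `c` -/
noncomputable def classSize (k c : ℕ) : ℕ :=
  ∑ c' ∈ range (numCodes k), if IsIso k c c' then 1 else 0

lemma classSize_eq (k c : ℕ) : classSize k c = (cls (codeModel k c)).card := by
  classical
  unfold classSize cls
  rw [Finset.card_filter, ← sum_codes k]
  refine Finset.sum_congr rfl fun c' _ => ?_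
  simp only [isIso_iff]

end Pool.Agent.TH430.Lin
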