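import Pool.Agent.TH430.Lin.Code

/-!
# Lineons: primitive recursiveness
-/

set_option autoImplicit false

namespace Pool.Agent.TH430.Lin

open Finset

section closure
variable {α : Type} [Primcodable α]

lemma pr_pow {f g : α → ℕ} (hf : Primrec f) (hg : Primrec g) :
    Primrec (fun a => f a ^ g a) := by
  have h : Primrec₂ (fun a b : ℕ => a ^ b) := Primrec₂.unpaired'.1 Nat.Primrec.pow
  exact h.comp hf hg

lemma pr_add {f g : α → ℕ} (hf : Primrec f) (hg : Primrec g) :
    Primrec (fun a => f a + g a) := Primrec.nat_add.comp hf hg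

lemma pr_mul {f g : α → ℕ} (hf : Primrec f) (hg : Primrec g) :
    Primrec (fun a => f a * g a) := Primrec.nat_mul.comp hf hg

lemma pr_sub {f g : α → ℕ} (hf : Primrec f) (hg : Primrec g) :
    Primrec (fun a => f a - g a) := Primrec.nat_sub.comp hf hg

lemma pr_testBit {f g : α → ℕ} (hf : Primrec f) (hg : Primrec g) :
    Primrec (fun a => (f a).testBit (g a)) := by
  have h : ∀ a b : ℕ, a.testBit b = decide (a / 2 ^ b % 2 = 1) := by
    intro a b
    rw [Nat.testBit_eq_decide_div_mod_eq]
  simp only [h]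
  have h2 : PrimrecPred (fun a => f a / 2 ^ g a % 2 = 1) :=
    Primrec.eq.comp (Primrec.nat_mod.comp (Primrec.nat_div.comp hf
      (pr_pow (Primrec.const 2) hg)) (Primrec.const 2)) (Primrec.const 1)
  exact h2.decide

lemma pr_forall_lt {n : α → ℕ} {R : α → ℕ → Prop} (hn : Primrec n)
    (hR : PrimrecPred (fun p : α × ℕ => R p.1 p.2)) : PrimrecPred (fun a => ∀ x < n a, R a x) := by
  have h1 : PrimrecRel (fun (x : ℕ) (a : α) => R a x) :=
    hR.comp (Primrec.pair Primrec.snd Primrec.fst)
  exact (h1.forall_mem_list.comp (Primrec.list_range.comp hn) Primrec.id).of_eq (by simp)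

lemma pr_exists_lt {n : α → ℕ} {R : α → ℕ → Prop} (hn : Primrec n)
    (hR : PrimrecPred (fun p : α × ℕ => R p.1 p.2)) : PrimrecPred (fun a => ∃ x < n a, R a x) := by
  have h1 : PrimrecRel (fun (x : ℕ) (a : α) => R a x) :=
    hR.comp (Primrec.pair Primrec.snd Primrec.fst)
  exact (h1.exists_mem_list.comp (Primrec.list_range.comp hn) Primrec.id).of_eq (by simp)

lemma pr_sum_range {n : α → ℕ} {g : α → ℕ → ℕ} (hn : Primrec n)
    (hg : Primrec (fun p : α × ℕ => g p.1 p.2)) :
    Primrec (fun a => ∑ i ∈ range (n a), g a i) := by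
  have h1 : Primrec₂ (fun (a : α) (p : ℕ × ℕ) => p.2 + g a p.1) :=
    pr_add (Primrec.snd.comp Primrec.snd)
      (hg.comp (Primrec.pair Primrec.fst (Primrec.fst.comp Primrec.snd)))
  refine (Primrec.nat_rec' hn (Primrec.const 0) h1).of_eq fun a => ?_
  induction n a with
  | zero => simp
  | succ m ih => rw [Finset.sum_range_succ]; simp only [ih]

lemma pr_bitAt {f g : α → ℕ} (hf : Primrec f) (hg : Primrec g) :
    Primrec (fun a => bitAt (f a) (g a)) :=
  pr_testBit hf (pr_sub hg (Primrec.const 1))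

lemma pr_twm {i j s : α → ℕ} (hi : Primrec i) (hj : Primrec j) (hs : Primrec s) :
    Primrec (fun a => twm (i a) (j a) (s a)) := by
  unfold twm
  refine Primrec.ite (Primrec.eq.comp (pr_testBit hs hi) (Primrec.const true)) ?_ hs
  exact Primrec.ite (Primrec.eq.comp (pr_testBit hs hj) (Primrec.const true))
    (pr_sub hs (pr_pow (Primrec.const 2) hj)) (pr_add hs (pr_pow (Primrec.const 2) hj))

lemma pr_dig {k p i : α → ℕ} (hk : Primrec k) (hp : Primrec p) (hi : Primrec i) :
    Primrec (fun a => dig (k a) (p a) (i a)) :=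
  Primrec.nat_mod.comp (Primrec.nat_div.comp hp (pr_pow hk hi)) hk

lemma pr_pm {k p s : α → ℕ} (hk : Primrec k) (hp : Primrec p) (hs : Primrec s) :
    Primrec (fun a => pm (k a) (p a) (s a)) := by
  unfold pm
  refine pr_sum_range hk ?_
  refine Primrec.ite (Primrec.eq.comp (pr_testBit (hs.comp Primrec.fst) Primrec.snd)
    (Primrec.const true)) ?_ (Primrec.const 0)
  exact pr_pow (Primrec.const 2)
    (pr_dig (hk.comp Primrec.fst) (hp.comp Primrec.fst) Primrec.snd)

lemma pr_imp {p q : α → Prop} (hp : PrimrecPred p) (hq : PrimrecPred q) :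
    PrimrecPred (fun a => p a → q a) :=
  (hp.not.or hq).of_eq fun a => by tauto

lemma pr_ne {f g : α → ℕ} (hf : Primrec f) (hg : Primrec g) :
    PrimrecPred (fun a => f a ≠ g a) := (Primrec.eq.comp hf hg).not

lemma pr_isTw {k i j c c' : α → ℕ} (hk : Primrec k) (hi : Primrec i) (hj : Primrec j)
    (hc : Primrec c) (hc' : Primrec c') :
    PrimrecPred (fun a => IsTw (k a) (i a) (j a) (c a) (c' a)) := by
  unfold IsTw
  refine pr_forall_lt (pr_pow (Primrec.const 2) hk) ?_
  refine pr_imp (pr_ne Primrec.snd (Primrec.const 0)) ?_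
  exact Primrec.eq.comp (pr_bitAt (hc'.comp Primrec.fst) Primrec.snd)
    (pr_bitAt (hc.comp Primrec.fst) (pr_twm (hi.comp Primrec.fst) (hj.comp Primrec.fst)
      Primrec.snd))

lemma pr_isRes {k l a' b h : α → ℕ} (hk : Primrec k) (hl : Primrec l) (ha : Primrec a')
    (hb : Primrec b) (hh : Primrec h) :
    PrimrecPred (fun a => IsRes (k a) (l a) (a' a) (b a) (h a)) := by
  unfold IsRes
  refine PrimrecPred.and ?_ ?_
  · refine pr_forall_lt (pr_pow (Primrec.const 2) hk) ?_
    refine pr_imp (pr_ne Primrec.snd (Primrec.const 0)) ?_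
    exact Primrec.eq.comp (pr_bitAt (hh.comp Primrec.fst) Primrec.snd)
      (pr_bitAt (ha.comp Primrec.fst) Primrec.snd)
  · refine pr_forall_lt (pr_pow (Primrec.const 2) hl) ?_
    refine pr_imp (pr_ne Primrec.snd (Primrec.const 0)) ?_
    exact Primrec.eq.comp (pr_bitAt (hh.comp Primrec.fst)
      (pr_mul Primrec.snd (pr_pow (Primrec.const 2) (hk.comp Primrec.fst))))
      (pr_bitAt (hb.comp Primrec.fst) Primrec.snd)

lemma pr_isIso {k c c' : α → ℕ} (hk : Primrec k) (hc : Primrec c) (hc' : Primrec c') :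
    PrimrecPred (fun a => IsIso (k a) (c a) (c' a)) := by
  unfold IsIso
  refine pr_exists_lt (pr_pow hk hk) ?_
  refine PrimrecPred.and ?_ ?_
  · refine pr_forall_lt (hk.comp Primrec.fst) ?_
    refine pr_forall_lt (hk.comp (Primrec.fst.comp Primrec.fst)) ?_
    refine pr_imp ?_ ?_
    · exact Primrec.eq.comp
        (pr_dig (hk.comp (Primrec.fst.comp (Primrec.fst.comp Primrec.fst)))
          (Primrec.snd.comp (Primrec.fst.comp Primrec.fst)) (Primrec.snd.comp Primrec.fst))
        (pr_dig (hk.comp (Primrec.fst.comp (Primrec.fst.comp Primrec.fst)))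
          (Primrec.snd.comp (Primrec.fst.comp Primrec.fst)) Primrec.snd)
    · exact Primrec.eq.comp (Primrec.snd.comp Primrec.fst) Primrec.snd
  · refine pr_forall_lt (pr_pow (Primrec.const 2) (hk.comp Primrec.fst)) ?_
    refine pr_imp (pr_ne Primrec.snd (Primrec.const 0)) ?_
    exact Primrec.eq.comp
      (pr_bitAt (hc'.comp (Primrec.fst.comp Primrec.fst)) Primrec.snd)
      (pr_bitAt (hc.comp (Primrec.fst.comp Primrec.fst))
        (pr_pm (hk.comp (Primrec.fst.comp Primrec.fst)) (Primrec.snd.comp Primrec.fst)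
          Primrec.snd))

lemma pr_numCodes {k : α → ℕ} (hk : Primrec k) : Primrec (fun a => numCodes (k a)) :=
  pr_pow (Primrec.const 2) (pr_sub (pr_pow (Primrec.const 2) hk) (Primrec.const 1))

lemma pr_classSize {k c : α → ℕ} (hk : Primrec k) (hc : Primrec c) :
    Primrec (fun a => classSize (k a) (c a)) := by
  classical
  unfold classSize
  refine pr_sum_range (pr_numCodes hk) ?_
  exact Primrec.ite (pr_isIso (hk.comp Primrec.fst) (hc.comp Primrec.fst) Primrec.snd)
    (Primrec.const 1) (Primrec.const 0)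

end closure

/-! ### The polynomials -/

/-- terms of polynomials -/
abbrev TermCode := (Bool × ℕ × ℕ) × List ℕ

/-- the term describing the labelled weight of the model coded by `c` -/
noncomputable def ymono (k c : ℕ) : TermCode :=
  if k = 0 then ((false, 1, 0), []) else ((false, 1, classSize k c - 1), [Nat.pair (k - 1) c])

/-- negation of a term -/
def negT (t : TermCode) : TermCode := ((!t.1.1, t.1.2), t.2)

/-- product of two terms with numerators one and positive signs -/
def mulT (t u : TermCode) : TermCode :=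
  ((false, 1, (t.1.2.2 + 1) * (u.1.2.2 + 1) - 1), t.2 ++ u.2)

open Classical in
/-- transvection invariance -/
noncomputable def P0 (k i j c c' : ℕ) : PolyCode :=
  if (i < k ∧ j < k) ∧ (i ≠ j ∧ IsTw k i j c c') then [ymono k c', negT (ymono k c)] else []

open Classical in
/-- independence -/
noncomputable def P1 (k l a b : ℕ) : PolyCode :=
  mulT (ymono k a) (ymono l b) ::
    (List.range (numCodes (k + l))).flatMap
      (fun h => if IsRes k l a b h then [negT (ymono (k + l) h)] else [])

/-- normalisation -/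
noncomputable def P2 (k : ℕ) : PolyCode :=
  ((true, 1, 0), []) :: (List.range (numCodes k)).flatMap (fun h => [ymono k h])

/-- negation of a polynomial -/
def negP (L : PolyCode) : PolyCode := L.map negT

/-- parameters -/
abbrev Par := (ℕ × ℕ) × (ℕ × ℕ × ℕ × ℕ × ℕ)

/-- all polynomials of the family; the first two parameters select the sign and the type -/
noncomputable def PP (u : Par) : PolyCode :=
  if u.1.1 = 0 then
    (if u.1.2 = 0 then P0 u.2.1 u.2.2.1 u.2.2.2.1 u.2.2.2.2.1 u.2.2.2.2.2 else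
      if u.1.2 = 1 then P1 u.2.1 u.2.2.1 u.2.2.2.1 u.2.2.2.2.1 else P2 u.2.1)
  else
    negP (if u.1.2 = 0 then P0 u.2.1 u.2.2.1 u.2.2.2.1 u.2.2.2.2.1 u.2.2.2.2.2 else
      if u.1.2 = 1 then P1 u.2.1 u.2.2.1 u.2.2.2.1 u.2.2.2.2.1 else P2 u.2.1)

section closure2
variable {α : Type} [Primcodable α]

lemma pr_ymono {k c : α → ℕ} (hk : Primrec k) (hc : Primrec c) :
    Primrec (fun a => ymono (k a) (c a)) := by
  unfold ymono
  refine Primrec.ite (Primrec.eq.comp hk (Primrec.const 0)) (Primrec.const _) ?_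
  refine Primrec.pair (Primrec.pair (Primrec.const false) (Primrec.pair (Primrec.const 1)
    (pr_sub (pr_classSize hk hc) (Primrec.const 1)))) ?_
  exact Primrec.list_cons.comp (Primrec₂.natPair.comp (pr_sub hk (Primrec.const 1)) hc)
    (Primrec.const [])

lemma pr_negT {t : α → TermCode} (ht : Primrec t) : Primrec (fun a => negT (t a)) := by
  unfold negT
  exact Primrec.pair (Primrec.pair (Primrec.not.comp (Primrec.fst.comp (Primrec.fst.comp ht)))
    (Primrec.snd.comp (Primrec.fst.comp ht))) (Primrec.snd.comp ht)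

lemma pr_mulT {t u : α → TermCode} (ht : Primrec t) (hu : Primrec u) :
    Primrec (fun a => mulT (t a) (u a)) := by
  unfold mulT
  refine Primrec.pair (Primrec.pair (Primrec.const false) (Primrec.pair (Primrec.const 1) ?_)) ?_
  · exact pr_sub (pr_mul
      (pr_add (Primrec.snd.comp (Primrec.snd.comp (Primrec.fst.comp ht))) (Primrec.const 1))
      (pr_add (Primrec.snd.comp (Primrec.snd.comp (Primrec.fst.comp hu))) (Primrec.const 1)))
      (Primrec.const 1)
  · exact Primrec.list_append.comp (Primrec.snd.comp ht) (Primrec.snd.comp hu)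

lemma pr_P0 {k i j c c' : α → ℕ} (hk : Primrec k) (hi : Primrec i) (hj : Primrec j)
    (hc : Primrec c) (hc' : Primrec c') :
    Primrec (fun a => P0 (k a) (i a) (j a) (c a) (c' a)) := by
  classical
  unfold P0
  refine Primrec.ite ?_ ?_ (Primrec.const [])
  · exact ((Primrec.nat_lt.comp hi hk).and (Primrec.nat_lt.comp hj hk)).and
      ((pr_ne hi hj).and (pr_isTw hk hi hj hc hc'))
  · exact Primrec.list_cons.comp (pr_ymono hk hc')
      (Primrec.list_cons.comp (pr_negT (pr_ymono hk hc)) (Primrec.const []))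

lemma pr_P1 {k l a' b : α → ℕ} (hk : Primrec k) (hl : Primrec l) (ha : Primrec a')
    (hb : Primrec b) : Primrec (fun a => P1 (k a) (l a) (a' a) (b a)) := by
  classical
  unfold P1
  refine Primrec.list_cons.comp (pr_mulT (pr_ymono hk ha) (pr_ymono hl hb)) ?_
  refine Primrec.list_flatMap (Primrec.list_range.comp (pr_numCodes (pr_add hk hl))) ?_
  refine Primrec.ite (pr_isRes (hk.comp Primrec.fst) (hl.comp Primrec.fst)
    (ha.comp Primrec.fst) (hb.comp Primrec.fst) Primrec.snd) ?_ (Primrec.const [])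
  exact Primrec.list_cons.comp (pr_negT (pr_ymono
    (pr_add (hk.comp Primrec.fst) (hl.comp Primrec.fst)) Primrec.snd)) (Primrec.const [])

lemma pr_P2 {k : α → ℕ} (hk : Primrec k) : Primrec (fun a => P2 (k a)) := by
  unfold P2
  refine Primrec.list_cons.comp (Primrec.const _) ?_
  refine Primrec.list_flatMap (Primrec.list_range.comp (pr_numCodes hk)) ?_
  exact Primrec.list_cons.comp (pr_ymono (hk.comp Primrec.fst) Primrec.snd) (Primrec.const [])

lemma pr_negP {L : α → PolyCode} (hL : Primrec L) : Primrec (fun a => negP (L a)) := by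
  unfold negP
  exact Primrec.list_map hL (pr_negT Primrec.snd)

end closure2

lemma pr_PP : Primrec PP := by
  have h1 : Primrec (fun u : Par => u.2.1) := Primrec.fst.comp Primrec.snd
  have h2 : Primrec (fun u : Par => u.2.2.1) :=
    Primrec.fst.comp (Primrec.snd.comp Primrec.snd)
  have h3 : Primrec (fun u : Par => u.2.2.2.1) :=
    Primrec.fst.comp (Primrec.snd.comp (Primrec.snd.comp Primrec.snd))
  have h4 : Primrec (fun u : Par => u.2.2.2.2.1) :=
    Primrec.fst.comp (Primrec.snd.comp (Primrec.snd.comp (Primrec.snd.comp Primrec.snd)))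
  have h5 : Primrec (fun u : Par => u.2.2.2.2.2) :=
    Primrec.snd.comp (Primrec.snd.comp (Primrec.snd.comp (Primrec.snd.comp Primrec.snd)))
  have h6 : Primrec (fun u : Par => u.1.1) := Primrec.fst.comp Primrec.fst
  have h7 : Primrec (fun u : Par => u.1.2) := Primrec.snd.comp Primrec.fst
  have hb : Primrec (fun u : Par =>
      (if u.1.2 = 0 then P0 u.2.1 u.2.2.1 u.2.2.2.1 u.2.2.2.2.1 u.2.2.2.2.2 else
      if u.1.2 = 1 then P1 u.2.1 u.2.2.1 u.2.2.2.1 u.2.2.2.2.1 else P2 u.2.1)) :=
    Primrec.ite (Primrec.eq.comp h7 (Primrec.const 0)) (pr_P0 h1 h2 h3 h4 h5)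
      (Primrec.ite (Primrec.eq.comp h7 (Primrec.const 1)) (pr_P1 h1 h2 h3 h4) (pr_P2 h1))
  unfold PP
  exact Primrec.ite (Primrec.eq.comp h6 (Primrec.const 0)) hb (pr_negP hb)

end Pool.Agent.TH430.Lin
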