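import Pool.Agent.TH430.Lin.Defs

/-!
# Lineons: labelled counts
-/

set_option autoImplicit false

namespace Pool.Agent.TH430.Lin

open Finset Topology

open Classical in
/-- number of embeddings inducing a given labelled model -/
noncomputable def cnt {k : ℕ} (F : Model (Fin k)) {V : Type} [Fintype V] (N : Model V) : ℕ :=
  (univ.filter (fun φ : Fin k ↪ V => pull φ N = F)).card

open Classical in
/-- the labelled models isomorphic to `F` -/
noncomputable def cls {k : ℕ} (F : Model (Fin k)) : Finset (Model (Fin k)) :=
  univ.filter (fun G : Model (Fin k) => ∃ e : Fin k ≃ Fin k, pull e.toEmbedding F = G)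

lemma mem_cls {k : ℕ} {F G : Model (Fin k)} :
    G ∈ cls F ↔ ∃ e : Fin k ≃ Fin k, pull e.toEmbedding F = G := by
  simp [cls]

lemma self_mem_cls {k : ℕ} (F : Model (Fin k)) : F ∈ cls F :=
  mem_cls.2 ⟨Equiv.refl _, pull_refl F⟩

lemma cls_pos {k : ℕ} (F : Model (Fin k)) : 0 < (cls F).card :=
  Finset.card_pos.2 ⟨F, self_mem_cls F⟩

lemma pull_symm_pull {k : ℕ} (e : Fin k ≃ Fin k) (F : Model (Fin k)) :
    pull e.symm.toEmbedding (pull e.toEmbedding F) = F := by
  rw [pull_pull]
  convert pull_refl F using 2
  ext x
  simp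

lemma pull_pull_symm {k : ℕ} (e : Fin k ≃ Fin k) (F : Model (Fin k)) :
    pull e.toEmbedding (pull e.symm.toEmbedding F) = F := by
  rw [pull_pull]
  convert pull_refl F using 2
  ext x
  simp

lemma cls_eq {k : ℕ} {F G : Model (Fin k)} (h : G ∈ cls F) : cls G = cls F := by
  obtain ⟨e, rfl⟩ := mem_cls.1 h
  ext H
  rw [mem_cls, mem_cls]
  constructor
  · rintro ⟨f, rfl⟩
    exact ⟨f.trans e, by rw [pull_pull]; rfl⟩
  · rintro ⟨f, rfl⟩
    refine ⟨f.trans e.symm, ?_⟩
    rw [pull_pull]
    congr 1
    ext x
    simp

lemma cnt_pull {k : ℕ} (e : Fin k ≃ Fin k) (F : Model (Fin k)) {V : Type} [Fintype V]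
    (N : Model V) : cnt (pull e.toEmbedding F) N = cnt F N := by
  classical
  unfold cnt
  symm
  refine Finset.card_bij' (fun φ _ => e.toEmbedding.trans φ) (fun φ _ => e.symm.toEmbedding.trans φ)
    ?_ ?_ ?_ ?_
  · intro φ hφ
    simp only [mem_filter, mem_univ, true_and] at hφ ⊢
    rw [← pull_pull, hφ]
  · intro φ hφ
    simp only [mem_filter, mem_univ, true_and] at hφ ⊢
    rw [← pull_pull, hφ, pull_symm_pull]
  · intro φ _
    ext x
    simp
  · intro φ _
    ext x
    simp

lemma exists_equiv_of_map_eq {k : ℕ} {V : Type} (φ ψ : Fin k ↪ V)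
    (h : (univ : Finset (Fin k)).map φ = univ.map ψ) :
    ∃ e : Fin k ≃ Fin k, φ = e.toEmbedding.trans ψ := by
  have h1 : ∀ i, ∃ j, ψ j = φ i := by
    intro i
    have : φ i ∈ (univ : Finset (Fin k)).map ψ := by
      rw [← h]
      exact Finset.mem_map_of_mem _ (mem_univ _)
    obtain ⟨j, -, hj⟩ := Finset.mem_map.1 this
    exact ⟨j, hj⟩
  choose f hf using h1
  have hinj : Function.Injective f := by
    intro a b hab
    apply φ.injective
    rw [← hf a, ← hf b, hab]
  refine ⟨Equiv.ofBijective f (Finite.injective_iff_bijective.1 hinj), ?_⟩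
  ext i
  simp [hf]

lemma key_count {k : ℕ} (F : Model (Fin k)) {V : Type} [Fintype V] (N : Model V)
    [DecidablePred (fun S : Finset V => ∃ φ : Fin k ↪ V, univ.map φ = S ∧ pull φ N = F)] :
    k.factorial * (((univ : Finset V).powersetCard k).filter
      (fun S => ∃ φ : Fin k ↪ V, univ.map φ = S ∧ pull φ N = F)).card =
      (cls F).card * cnt F N := by
  classical
  set T : Finset (Fin k ↪ V) := univ.filter (fun φ => pull φ N ∈ cls F) with hT
  set good := ((univ : Finset V).powersetCard k).filter
      (fun S => ∃ φ : Fin k ↪ V, univ.map φ = S ∧ pull φ N = F) with hgood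
  have h1 : T.card = (cls F).card * cnt F N := by
    rw [Finset.card_eq_sum_card_fiberwise (f := fun φ => pull φ N) (t := cls F)]
    · rw [Finset.sum_congr rfl (g := fun _ => cnt F N)]
      · simp
      · intro G hG
        obtain ⟨e, rfl⟩ := mem_cls.1 hG
        rw [← cnt_pull e F N]
        unfold cnt
        congr 1
        ext φ
        simp only [hT, mem_filter, mem_univ, true_and]
        constructor
        · exact fun h => h.2
        · intro h
          exact ⟨by rw [h]; exact hG, h⟩
    · intro φ hφ
      simpa [hT] using hφ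
  have h2 : T.card = k.factorial * good.card := by
    rw [Finset.card_eq_sum_card_fiberwise (f := fun φ : Fin k ↪ V => univ.map φ) (t := good)]
    · rw [Finset.sum_congr rfl (g := fun _ => k.factorial)]
      · simp [mul_comm]
      · intro S hS
        simp only [hgood, mem_filter, mem_powersetCard] at hS
        obtain ⟨-, φ₀, h0, h0'⟩ := hS
        have : Fintype.card (Fin k ≃ Fin k) = k.factorial := by
          rw [Fintype.card_equiv (Equiv.refl _), Fintype.card_fin]
        rw [← this, ← Finset.card_univ]
        symm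
        refine Finset.card_bij (fun e _ => e.toEmbedding.trans φ₀) ?_ ?_ ?_
        · intro e _
          simp only [hT, mem_filter, mem_univ, true_and]
          refine ⟨?_, ?_⟩
          · rw [← pull_pull, h0']
            exact mem_cls.2 ⟨e, rfl⟩
          · rw [← Finset.map_map, Finset.map_univ_equiv, h0]
        · intro e _ e' _ h
          ext x
          have := DFunLike.congr_fun h x
          simp only [Function.Embedding.trans_apply, Equiv.coe_toEmbedding] at this
          rw [φ₀.injective this]
        · intro φ hφ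
          simp only [hT, mem_filter, mem_univ, true_and] at hφ
          obtain ⟨e, he⟩ := exists_equiv_of_map_eq φ φ₀ (hφ.2.trans h0.symm)
          exact ⟨e, mem_univ _, he.symm⟩
    · intro φ hφ
      simp only [hT, mem_univ, true_and, coe_filter, Set.mem_ofPred_eq] at hφ
      obtain ⟨e, he⟩ := mem_cls.1 hφ
      simp only [hgood, coe_filter, Set.mem_ofPred_eq, mem_powersetCard, subset_univ, card_map,
        card_univ, Fintype.card_fin, true_and]
      refine ⟨e.symm.toEmbedding.trans φ, ?_, ?_⟩
      · rw [← Finset.map_map, Finset.map_univ_equiv]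
      · rw [← pull_pull, ← he, pull_symm_pull]
  rw [← h2, h1]

/-- the labelled density -/
noncomputable def tt {k : ℕ} (F : Model (Fin k)) {V : Type} [Fintype V] (N : Model V) : ℝ :=
  cnt F N / (Fintype.card V).descFactorial k

lemma dens_eq {k : ℕ} (hk : 0 < k) (F : Model (Fin k)) {V : Type} [Fintype V] (N : Model V) :
    dens ⟨k, hk, F⟩ N = (cls F).card * tt F N := by
  classical
  unfold dens tt
  have h := key_count F N
  rw [Nat.descFactorial_eq_factorial_mul_choose]
  have hf : (k.factorial : ℝ) ≠ 0 := by exact_mod_cast k.factorial_ne_zero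
  have h' : (k.factorial : ℝ) * (((univ : Finset V).powersetCard k).filter
      (fun S => ∃ φ : Fin k ↪ V, univ.map φ = S ∧ pull φ N = F)).card =
      (cls F).card * cnt F N := by exact_mod_cast h
  push_cast
  rw [← mul_div_assoc, ← h', mul_div_mul_left _ _ hf]

lemma tt_nonneg {k : ℕ} (F : Model (Fin k)) {V : Type} [Fintype V] (N : Model V) :
    0 ≤ tt F N := by
  unfold tt; positivity

lemma sum_cnt (k : ℕ) {V : Type} [Fintype V] (N : Model V) :
    ∑ F : Model (Fin k), cnt F N = (Fintype.card V).descFactorial k := by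
  classical
  have h : Fintype.card (Fin k ↪ V) = (Fintype.card V).descFactorial k := by
    rw [Fintype.card_embedding_eq, Fintype.card_fin]
  rw [← h, ← Finset.card_univ]
  rw [Finset.card_eq_sum_card_fiberwise (f := fun φ : Fin k ↪ V => pull φ N)
    (t := (univ : Finset (Model (Fin k))))]
  · rfl
  · intro x _
    simp

lemma sum_tt (k : ℕ) {V : Type} [Fintype V] (N : Model V) (h : k ≤ Fintype.card V) :
    ∑ F : Model (Fin k), tt F N = 1 := by
  unfold tt
  rw [← Finset.sum_div, ← Nat.cast_sum, sum_cnt, div_self]
  have := Nat.descFactorial_pos.2 h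
  exact_mod_cast this.ne'

lemma tt_large {k : ℕ} (F : Model (Fin k)) {V : Type} [Fintype V] (N : Model V)
    (h : Fintype.card V < k) : tt F N = 0 := by
  unfold tt
  rw [Nat.descFactorial_eq_zero_iff_lt.2 h]
  simp

end Pool.Agent.TH430.Lin
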