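import Mathlib

/-!
# Lineons: definitions

A model of `T_Lin` on a vertex set `V` is a `k`-uniform hypergraph `E_k` on `V` for every `k ≥ 1`,
that is, a Boolean function on the nonempty finite subsets of `V`.
-/

set_option autoImplicit false

namespace Pool.Agent.TH430.Lin

open Finset Topology

/-- The nonempty finite subsets of `V`: the possible (hyper)edges. -/
abbrev Edge (V : Type*) := {S : Finset V // S.Nonempty}

/-- A model of `T_Lin` on the vertex set `V`: for every `k ≥ 1` a `k`-uniform hypergraph on `V`;
`N S = true` says that `E_k` holds on the `k`-element set `S`. -/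
abbrev Model (V : Type*) := Edge V → Bool

/-- The image of an edge under an injection of the vertex sets. -/
def Edge.map {V W : Type*} (φ : V ↪ W) (S : Edge V) : Edge W := ⟨S.1.map φ, S.2.map⟩

/-- The model induced on `V` by an injection `φ : V ↪ W` into the vertex set of a model `N`. -/
def pull {V W : Type*} (φ : V ↪ W) (N : Model W) : Model V := fun S => N (Edge.map φ S)

/-- A finite model of `T_Lin` on `{0, …, n - 1}` with `n ≥ 1`. -/
structure FinModel where
  n : ℕ
  pos : 0 < n
  E : Model (Fin n)

/-- Isomorphism of finite models. -/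
def Iso (M N : FinModel) : Prop := ∃ e : Fin M.n ≃ Fin N.n, pull e.toEmbedding N.E = M.E

lemma pull_refl {V : Type*} (N : Model V) : pull (Function.Embedding.refl V) N = N := by
  funext S
  unfold pull Edge.map
  congr 1
  exact Subtype.ext (Finset.map_refl)

lemma pull_pull {U V W : Type*} (φ : U ↪ V) (ψ : V ↪ W) (N : Model W) :
    pull φ (pull ψ N) = pull (φ.trans ψ) N := by
  funext S
  unfold pull Edge.map
  congr 1
  exact Subtype.ext (Finset.map_map _ _ _)

lemma Iso.refl (M : FinModel) : Iso M M := ⟨Equiv.refl _, pull_refl _⟩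

lemma Iso.symm {M N : FinModel} (h : Iso M N) : Iso N M := by
  obtain ⟨e, he⟩ := h
  refine ⟨e.symm, ?_⟩
  rw [← he, pull_pull]
  convert pull_refl N.E using 2
  ext x
  simp

lemma Iso.trans {M N P : FinModel} (h : Iso M N) (h' : Iso N P) : Iso M P := by
  obtain ⟨e, he⟩ := h
  obtain ⟨f, hf⟩ := h'
  refine ⟨e.trans f, ?_⟩
  rw [← he, ← hf, pull_pull]
  rfl

/-- The setoid of isomorphism of finite models. -/
instance isoSetoid : Setoid FinModel := ⟨Iso, Iso.refl, Iso.symm, Iso.trans⟩

/-- The set of isomorphism classes of finite models of `T_Lin`. -/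
def IsoClass : Type := Quotient isoSetoid

open Classical in
/-- `p(M, N)`: the probability that a uniformly random `|M|`-element subset of the vertex set of
`N` induces a submodel isomorphic to `M` (and `0` if `|M| > |N|`). -/
noncomputable def dens (M : FinModel) {V : Type} [Fintype V] (N : Model V) : ℝ :=
  (((univ : Finset V).powersetCard M.n).filter
    (fun S => ∃ φ : Fin M.n ↪ V, univ.map φ = S ∧ pull φ N = M.E)).card /
      (Fintype.card V).choose M.n

lemma dens_iso {M M' : FinModel} (h : Iso M M') {V : Type} [Fintype V] (N : Model V) :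
    dens M N = dens M' N := by
  classical
  have key : ∀ {M M' : FinModel}, Iso M M' → ∀ S : Finset V,
      (∃ φ : Fin M.n ↪ V, univ.map φ = S ∧ pull φ N = M.E) →
      (∃ φ : Fin M'.n ↪ V, univ.map φ = S ∧ pull φ N = M'.E) := by
    intro M M' h S
    obtain ⟨e, he⟩ := h.symm
    rintro ⟨φ, h1, h2⟩
    refine ⟨e.toEmbedding.trans φ, ?_, ?_⟩
    · rw [← Finset.map_map, ← h1]
      congr 1
      exact Finset.map_univ_equiv e
    · rw [← pull_pull, h2, he]
  have hn : M.n = M'.n := by
    obtain ⟨e, -⟩ := h
    simpa using Fintype.card_congr e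
  unfold dens
  congr 2
  · congr 1
    ext S
    simp only [mem_filter, mem_powersetCard, hn]
    exact ⟨fun hS => ⟨hS.1, key h S hS.2⟩, fun hS => ⟨hS.1, key h.symm S hS.2⟩⟩
  · rw [hn]

lemma dens_mem (M : FinModel) {V : Type} [Fintype V] (N : Model V) :
    dens M N ∈ Set.Icc (0 : ℝ) 1 := by
  classical
  unfold dens
  refine ⟨by positivity, div_le_one_of_le₀ ?_ (by positivity)⟩
  have := Finset.card_filter_le ((univ : Finset V).powersetCard M.n)
    (fun S => ∃ φ : Fin M.n ↪ V, univ.map φ = S ∧ pull φ N = M.E)
  rw [Finset.card_powersetCard, Finset.card_univ] at this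
  exact_mod_cast this

/-- The point `p(-, N)` of `[0,1]^𝓜` given by a finite model `N`. -/
noncomputable def point {V : Type} [Fintype V] (N : Model V) : IsoClass → Set.Icc (0 : ℝ) 1 :=
  Quotient.lift (fun M => (⟨dens M N, dens_mem M N⟩ : Set.Icc (0 : ℝ) 1))
    (fun _ _ h => Subtype.ext (dens_iso h N))

/-- The model `M_A` on the vertex set `F_2^m`: `E_k(x_1, …, x_k)` holds for pairwise distinct
`x_1, …, x_k` with `x_1 + ⋯ + x_k ∈ A`. -/
def linModel {m : ℕ} (A : Finset (Fin m → ZMod 2)) : Model (Fin m → ZMod 2) :=
  fun S => decide (∑ x ∈ S.1, x ∈ A)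

/-- A lineon: an accumulation point in `[0,1]^𝓜` (with the product topology) of the set
`{p(-, M_A) : m ≥ 1, A ⊆ F_2^m}`. -/
def IsLineon (x : IsoClass → Set.Icc (0 : ℝ) 1) : Prop :=
  AccPt x (Filter.principal
    {z | ∃ m : ℕ, 1 ≤ m ∧ ∃ A : Finset (Fin m → ZMod 2), z = point (linModel A)})

/-- The model on `Fin n` coded by the natural number `c`: the edge `S` is present if and only if
the binary digit of `c` number `(∑ i ∈ S, 2^i) - 1` is one. -/
def codeModel (n c : ℕ) : Model (Fin n) := fun S => c.testBit ((∑ i ∈ S.1, 2 ^ i.val) - 1)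

/-- The computable enumeration of the isomorphism classes of finite models which lists, for all
`(k, c)`, the class of the model on `Fin (k + 1)` coded by `c`. -/
def enum (i : ℕ) : IsoClass :=
  ⟦⟨i.unpair.1 + 1, Nat.succ_pos _, codeModel (i.unpair.1 + 1) i.unpair.2⟩⟧

/-- Codes of polynomials in `x_0, x_1, …` with rational coefficients: a list of terms; the term
`((s, a, b), l)` stands for `± a / (b + 1) * ∏_{i ∈ l} x_i`, with the minus sign if `s = true`. -/
abbrev PolyCode := List ((Bool × ℕ × ℕ) × List ℕ)

/-- The polynomial with a given code. -/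
noncomputable def toPoly (L : PolyCode) : MvPolynomial ℕ ℚ :=
  (L.map fun t => MvPolynomial.C ((if t.1.1 then -1 else 1) * (t.1.2.1 : ℚ) / (t.1.2.2 + 1)) *
    (t.2.map MvPolynomial.X).prod).sum

/-- A family of polynomials with rational coefficients is computably enumerable if it is the range
of a computable sequence (of codes of polynomials). -/
def ComputablyEnumerable (F : Set (MvPolynomial ℕ ℚ)) : Prop :=
  ∃ f : ℕ → PolyCode, Computable f ∧ F = Set.range (fun i => toPoly (f i))

/-- The set `X` of points of `[0,1]^𝓜` has an explicit description: it is the common solution set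
in `[0,1]^𝓜` of the inequalities `P ≥ 0` for a computably enumerable family of polynomials `P` with
rational coefficients, each in finitely many coordinates (the variable number `i` stands for the
coordinate `enum i`). -/
def HasExplicitDescription (X : Set (IsoClass → Set.Icc (0 : ℝ) 1)) : Prop :=
  ∃ F : Set (MvPolynomial ℕ ℚ), ComputablyEnumerable F ∧
    X = {x | ∀ P ∈ F, 0 ≤ MvPolynomial.aeval (fun i => (x (enum i) : ℝ)) P}

end Pool.Agent.TH430.Lin
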