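import Pool.Agent.TH430.Lin.Comp

/-!
# Lineons: evaluation of the polynomials
-/

set_option autoImplicit false

namespace Pool.Agent.TH430.Lin

open Finset

/-- value of a term -/
noncomputable def evalT (v : ℕ → ℝ) (t : TermCode) : ℝ :=
  (if t.1.1 then -1 else 1) * (t.1.2.1 : ℝ) / (t.1.2.2 + 1) * (t.2.map v).prod

/-- value of a polynomial -/
noncomputable def evalC (v : ℕ → ℝ) (L : PolyCode) : ℝ := (L.map (evalT v)).sum

lemma aeval_toPoly (v : ℕ → ℝ) (L : PolyCode) :
    MvPolynomial.aeval v (toPoly L) = evalC v L := by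
  unfold toPoly evalC
  rw [map_list_sum, List.map_map]
  congr 1
  refine List.map_congr_left fun t _ => ?_
  simp only [Function.comp_apply, map_mul, map_list_prod, List.map_map, MvPolynomial.aeval_C]
  unfold evalT
  congr 1
  · rw [map_div₀, map_mul]
    split_ifs <;> simp
  · congr 1
    refine List.map_congr_left fun i _ => ?_
    simp

lemma evalC_nil (v : ℕ → ℝ) : evalC v [] = 0 := rfl

lemma evalC_cons (v : ℕ → ℝ) (t : TermCode) (L : PolyCode) :
    evalC v (t :: L) = evalT v t + evalC v L := by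
  simp [evalC]

lemma evalC_append (v : ℕ → ℝ) (L L' : PolyCode) :
    evalC v (L ++ L') = evalC v L + evalC v L' := by
  simp [evalC]

lemma evalT_negT (v : ℕ → ℝ) (t : TermCode) : evalT v (negT t) = - evalT v t := by
  unfold evalT negT
  cases h : t.1.1
  · simp [neg_div]
  · simp [neg_div]

lemma evalC_negP (v : ℕ → ℝ) (L : PolyCode) : evalC v (negP L) = - evalC v L := by
  induction L with
  | nil => simp [negP, evalC]
  | cons t L ih =>
    have : negP (t :: L) = negT t :: negP L := rfl
    rw [this, evalC_cons, evalC_cons, ih, evalT_negT]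
    ring

lemma evalC_flatMap (v : ℕ → ℝ) (n : ℕ) (g : ℕ → PolyCode) :
    evalC v ((List.range n).flatMap g) = ∑ h ∈ range n, evalC v (g h) := by
  induction n with
  | zero => simp [evalC]
  | succ n ih =>
    rw [List.range_succ, List.flatMap_append, evalC_append, ih, Finset.sum_range_succ]
    simp

lemma ymono_shape (k c : ℕ) : (ymono k c).1.1 = false ∧ (ymono k c).1.2.1 = 1 := by
  unfold ymono
  split_ifs <;> simp

lemma evalT_mulT (v : ℕ → ℝ) {t u : TermCode} (ht : t.1.1 = false ∧ t.1.2.1 = 1)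
    (hu : u.1.1 = false ∧ u.1.2.1 = 1) : evalT v (mulT t u) = evalT v t * evalT v u := by
  unfold evalT mulT
  simp only [ht.1, ht.2, hu.1, hu.2, List.map_append, List.prod_append]
  have h : (((t.1.2.2 + 1) * (u.1.2.2 + 1) - 1 : ℕ) : ℝ) + 1 =
      ((t.1.2.2 : ℝ) + 1) * ((u.1.2.2 : ℝ) + 1) := by
    have h1 : 1 ≤ (t.1.2.2 + 1) * (u.1.2.2 + 1) := Nat.one_le_iff_ne_zero.2 (by positivity)
    push_cast [Nat.cast_sub h1]
    ring
  rw [h]
  have h2 : ((t.1.2.2 : ℝ) + 1) ≠ 0 := by positivity
  have h3 : ((u.1.2.2 : ℝ) + 1) ≠ 0 := by positivity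
  simp only [Bool.false_eq_true, if_false, Nat.cast_one]
  field_simp

/-- the values of the coordinates -/
noncomputable def coord (x : IsoClass → Set.Icc (0 : ℝ) 1) (i : ℕ) : ℝ := (x (enum i) : ℝ)

lemma enum_pair (k c : ℕ) :
    enum (Nat.pair k c) = ⟦⟨k + 1, Nat.succ_pos _, codeModel (k + 1) c⟩⟧ := by
  have h : ∀ q : ℕ × ℕ, Nat.unpair (Nat.pair k c) = q →
      enum (Nat.pair k c) = ⟦⟨q.1 + 1, Nat.succ_pos _, codeModel (q.1 + 1) q.2⟩⟧ := by
    rintro q rfl
    rfl
  exact h (k, c) (Nat.unpair_pair k c)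

lemma evalT_ymono (x : IsoClass → Set.Icc (0 : ℝ) 1) (k c : ℕ) :
    evalT (coord x) (ymono k c) = yOf x k (codeModel k c) := by
  unfold ymono yOf evalT
  rcases Nat.eq_zero_or_pos k with rfl | hk
  · simp
  · rw [if_neg hk.ne', dif_pos hk]
    obtain ⟨k, rfl⟩ := Nat.exists_eq_succ_of_ne_zero hk.ne'
    have h1 : 1 ≤ classSize (k + 1) c := by
      rw [classSize_eq]; exact cls_pos _
    have h2 : coord x (Nat.pair k c) = (x ⟦⟨k + 1, hk, codeModel (k + 1) c⟩⟧ : ℝ) := by
      unfold coord
      rw [enum_pair]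
    simp only [Nat.succ_eq_add_one, Nat.add_sub_cancel, List.map_cons, List.map_nil,
      List.prod_cons, List.prod_nil, Bool.false_eq_true, if_false, Nat.cast_one]
    rw [h2, Nat.cast_sub h1, classSize_eq]
    push_cast
    field_simp
    ring

lemma evalC_P1 (x : IsoClass → Set.Icc (0 : ℝ) 1) (k l a b : ℕ)
    [DecidableEq (Model (Fin k))] [DecidableEq (Model (Fin l))] :
    evalC (coord x) (P1 k l a b) = yOf x k (codeModel k a) * yOf x l (codeModel l b) -
      ∑ H : Model (Fin (k + l)), if resL H = codeModel k a ∧ resR H = codeModel l b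
        then yOf x (k + l) H else 0 := by
  classical
  unfold P1
  rw [evalC_cons, evalT_mulT _ (ymono_shape _ _) (ymono_shape _ _), evalT_ymono, evalT_ymono,
    evalC_flatMap, sub_eq_add_neg, ← Finset.sum_neg_distrib, ← sum_codes]
  congr 1
  refine Finset.sum_congr rfl fun h _ => ?_
  by_cases hh : IsRes k l a b h
  · rw [if_pos hh, if_pos (isRes_iff.1 hh), evalC_cons, evalC_nil, evalT_negT, evalT_ymono,
      add_zero]
  · rw [if_neg hh, if_neg (fun h' => hh (isRes_iff.2 h')), evalC_nil, neg_zero]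

lemma evalC_P2 (x : IsoClass → Set.Icc (0 : ℝ) 1) (k : ℕ) :
    evalC (coord x) (P2 k) = -1 + ∑ H : Model (Fin k), yOf x k H := by
  unfold P2
  rw [evalC_cons, evalC_flatMap, ← sum_codes]
  congr 1
  · unfold evalT
    simp
  · refine Finset.sum_congr rfl fun h _ => ?_
    rw [evalC_cons, evalC_nil, evalT_ymono, add_zero]

lemma evalC_P0 (x : IsoClass → Set.Icc (0 : ℝ) 1) {k c c' : ℕ} {i j : Fin k} (hij : i ≠ j)
    (h : codeModel k c' = tw i j hij (codeModel k c)) :
    evalC (coord x) (P0 k i j c c') =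
      yOf x k (tw i j hij (codeModel k c)) - yOf x k (codeModel k c) := by
  unfold P0
  rw [if_pos ⟨⟨i.2, j.2⟩, fun h' => hij (Fin.ext h'), (isTw_iff hij).2 h⟩, evalC_cons, evalC_cons,
    evalC_nil, evalT_negT, evalT_ymono, evalT_ymono, h]
  ring

lemma evalC_P0' (x : IsoClass → Set.Icc (0 : ℝ) 1) (hx : Law (yOf x)) (k i j c c' : ℕ) :
    evalC (coord x) (P0 k i j c c') = 0 := by
  by_cases h : (i < k ∧ j < k) ∧ (i ≠ j ∧ IsTw k i j c c')
  · obtain ⟨⟨hi, hj⟩, hij, htw⟩ := h
    have hij' : (⟨i, hi⟩ : Fin k) ≠ ⟨j, hj⟩ := fun h' => hij (Fin.mk.inj_iff.1 h')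
    have h2 : codeModel k c' = tw ⟨i, hi⟩ ⟨j, hj⟩ hij' (codeModel k c) :=
      (isTw_iff (i := ⟨i, hi⟩) (j := ⟨j, hj⟩) hij').1 htw
    have h3 := evalC_P0 x hij' h2
    rw [h3, hx.trans, sub_self]
  · unfold P0
    rw [if_neg h, evalC_nil]

lemma exists_code {k : ℕ} (F : Model (Fin k)) : ∃ c : ℕ, codeModel k c = F := by
  obtain ⟨c, hc⟩ := (codeModel_bij k).2 F
  exact ⟨c.val, hc⟩

theorem family_iff (x : IsoClass → Set.Icc (0 : ℝ) 1) :
    (∀ u : Par, 0 ≤ evalC (coord x) (PP u)) ↔ Law (yOf x) := by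
  classical
  constructor
  · intro h
    have h0 : ∀ k i j c c', evalC (coord x) (P0 k i j c c') = 0 := by
      intro k i j c c'
      have h1 := h ((0, 0), (k, i, j, c, c'))
      have h2 := h ((1, 0), (k, i, j, c, c'))
      simp only [PP] at h1 h2
      rw [if_pos trivial, if_pos trivial] at h1
      rw [if_neg (by norm_num), if_pos trivial, evalC_negP] at h2
      linarith
    have h1 : ∀ k l a b, evalC (coord x) (P1 k l a b) = 0 := by
      intro k l a b
      have h1 := h ((0, 1), (k, l, a, b, 0))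
      have h2 := h ((1, 1), (k, l, a, b, 0))
      simp only [PP] at h1 h2
      rw [if_pos trivial, if_neg (by norm_num), if_pos trivial] at h1
      rw [if_neg (by norm_num), if_neg (by norm_num), if_pos trivial, evalC_negP] at h2
      linarith
    have h2 : ∀ k, evalC (coord x) (P2 k) = 0 := by
      intro k
      have h1 := h ((0, 2), (k, 0, 0, 0, 0))
      have h2 := h ((1, 2), (k, 0, 0, 0, 0))
      simp only [PP] at h1 h2
      rw [if_pos trivial, if_neg (by norm_num), if_neg (by norm_num)] at h1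
      rw [if_neg (by norm_num), if_neg (by norm_num), if_neg (by norm_num), evalC_negP] at h2
      linarith
    refine ⟨?_, ?_, ?_, ?_⟩
    · intro k F
      unfold yOf
      split_ifs
      · exact div_nonneg (x _).2.1 (Nat.cast_nonneg _)
      · exact zero_le_one
    · intro k
      have h3 := h2 k
      rw [evalC_P2] at h3
      linarith
    · intro k i j hij F
      obtain ⟨c, rfl⟩ := exists_code F
      obtain ⟨c', hc'⟩ := exists_code (tw i j hij (codeModel k c))
      have h3 := h0 k i j c c'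
      rw [evalC_P0 x hij hc'] at h3
      linarith
    · intro k l F G
      obtain ⟨a, rfl⟩ := exists_code F
      obtain ⟨b, rfl⟩ := exists_code G
      have h3 := h1 k l a b
      rw [evalC_P1] at h3
      have h4 : (∑ H : Model (Fin (k + l)), if resL H = codeModel k a ∧ resR H = codeModel l b
        then yOf x (k + l) H else 0) = yOf x k (codeModel k a) * yOf x l (codeModel l b) := by
        linarith
      convert h4
  · intro hx u
    have h1 : ∀ k l a b, evalC (coord x) (P1 k l a b) = 0 := by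
      intro k l a b
      rw [evalC_P1]
      have h4 := hx.prod k l (codeModel k a) (codeModel l b)
      rw [sub_eq_zero, ← h4]
    have h2 : ∀ k, evalC (coord x) (P2 k) = 0 := by
      intro k
      rw [evalC_P2, hx.sum_one]
      norm_num
    unfold PP
    split_ifs <;> simp [evalC_negP, evalC_P0' x hx, h1, h2]

end Pool.Agent.TH430.Lin
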