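import Pool.Agent.TH430.Lin.Limits

/-!
# Lineons: laws invariant under the general linear group
-/

set_option autoImplicit false

namespace Pool.Agent.TH430.Lin

open Finset Topology Filter

/-- A family of weights on labelled models which satisfies the constraints. -/
structure Law (y : ∀ k : ℕ, Model (Fin k) → ℝ) : Prop where
  nonneg : ∀ k F, 0 ≤ y k F
  sum_one : ∀ k, ∑ F : Model (Fin k), y k F = 1
  trans : ∀ (k : ℕ) (i j : Fin k) (hij : i ≠ j) (F : Model (Fin k)), y k (tw i j hij F) = y k F
  prod : ∀ (k l : ℕ) (F : Model (Fin k)) (G : Model (Fin l)),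
    (∑ H : Model (Fin (k + l)), if resL H = F ∧ resR H = G then y (k + l) H else 0) = y k F * y l G

/-- the support of a vector -/
def supp {n : ℕ} (a : Vm n) : Finset (Fin n) := univ.filter (fun i => a i ≠ 0)

/-- the indicator vector of a set -/
def ind {n : ℕ} (S : Finset (Fin n)) : Vm n := fun i => if i ∈ S then 1 else 0

lemma supp_ind {n : ℕ} (S : Finset (Fin n)) : supp (ind S) = S := by
  ext i
  simp [supp, ind]

lemma ind_supp {n : ℕ} (a : Vm n) : ind (supp a) = a := by
  funext i
  simp only [supp, ind, mem_filter, mem_univ, true_and]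
  rcases zmod2_cases (a i) with h | h <;> simp [h]

lemma ind_ne_zero {n : ℕ} {S : Finset (Fin n)} (h : S.Nonempty) : ind S ≠ 0 := by
  obtain ⟨i, hi⟩ := h
  intro h0
  have := congrFun h0 i
  simp [ind, hi] at this

lemma supp_nonempty_iff {n : ℕ} (a : Vm n) : (supp a).Nonempty ↔ a ≠ 0 := by
  constructor
  · intro h h0
    subst h0
    simp [supp] at h
  · intro h
    by_contra h'
    rw [Finset.not_nonempty_iff_eq_empty] at h'
    apply h
    rw [← ind_supp a, h']
    funext i
    simp [ind]

/-- a labelled model on `Fin n` as a function on `F_2^n` -/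
def ext {n : ℕ} (H : Model (Fin n)) (a : Vm n) : Bool :=
  if h : (supp a).Nonempty then H ⟨supp a, h⟩ else false

lemma ext_zero {n : ℕ} (H : Model (Fin n)) : ext H 0 = false := by
  simp [ext, supp]

lemma ext_ind {n : ℕ} (H : Model (Fin n)) (S : Edge (Fin n)) : ext H (ind S.1) = H S := by
  have h : (supp (ind S.1)).Nonempty := by rw [supp_ind]; exact S.2
  unfold ext
  rw [dif_pos h]
  congr 1
  exact Subtype.ext (supp_ind S.1)

/-- the action of a self-map of `F_2^n` on labelled models -/
def act {n : ℕ} (f : Vm n → Vm n) (H : Model (Fin n)) : Model (Fin n) :=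
  fun S => ext H (f (ind S.1))

lemma ext_act {n : ℕ} (f : Vm n → Vm n) (hf : f 0 = 0) (H : Model (Fin n)) (a : Vm n) :
    ext (act f H) a = ext H (f a) := by
  by_cases h : a = 0
  · subst h
    rw [hf, ext_zero, ext_zero]
  · have h' := (supp_nonempty_iff a).2 h
    conv_lhs => unfold ext
    rw [dif_pos h']
    unfold act
    simp only [ind_supp]

lemma act_act {n : ℕ} (f g : Vm n → Vm n) (hg : g 0 = 0) (H : Model (Fin n)) :
    act f (act g H) = act (g ∘ f) H := by
  funext S
  show ext (act g H) (f (ind S.1)) = _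
  rw [ext_act g hg]
  rfl

lemma act_id {n : ℕ} (H : Model (Fin n)) : act id H = H := by
  funext S
  exact ext_ind H S

section law
variable {y : ∀ k : ℕ, Model (Fin k) → ℝ} (hy : Law y)
include hy

lemma inv_transvection {n : ℕ} (t : Matrix.TransvectionStruct (Fin n) (ZMod 2))
    (H : Model (Fin n)) : y n (act t.toMatrix.mulVec H) = y n H := by
  obtain ⟨i, j, hij, c⟩ := t
  have hval : ∀ a : Vm n, (Matrix.TransvectionStruct.toMatrix ⟨i, j, hij, c⟩).mulVec a =
      fun t => a t + if t = i then c * a j else 0 := by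
    intro a
    rw [Matrix.TransvectionStruct.toMatrix_mk, Matrix.transvection, Matrix.add_mulVec,
      Matrix.one_mulVec]
    funext t
    rw [Pi.add_apply]
    congr 1
    rw [Matrix.mulVec, dotProduct]
    simp only [Matrix.single_apply]
    by_cases ht : t = i
    · subst ht
      simp
    · rw [if_neg ht]
      refine Finset.sum_eq_zero fun x _ => ?_
      rw [if_neg, zero_mul]
      rintro ⟨h1, -⟩
      exact ht h1.symm
  rcases zmod2_cases c with rfl | rfl
  · have : (Matrix.TransvectionStruct.toMatrix ⟨i, j, hij, (0 : ZMod 2)⟩).mulVec = id := by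
      funext a
      rw [hval]
      simp
    rw [this, act_id]
  · have : act (Matrix.TransvectionStruct.toMatrix ⟨i, j, hij, (1 : ZMod 2)⟩).mulVec H =
        tw j i hij.symm H := by
      funext S
      unfold act tw
      rw [hval, ← ext_ind H ⟨tws j i S.1, _⟩]
      congr 1
      funext t
      simp only [ind, tws]
      by_cases h1 : j ∈ S.1 <;> by_cases h2 : i ∈ S.1 <;> by_cases h3 : t = i <;>
        by_cases h4 : t ∈ S.1 <;> simp_all [CharTwo.add_self_eq_zero]
    rw [this, hy.trans]

lemma inv_matrix {n : ℕ} (M : Matrix (Fin n) (Fin n) (ZMod 2)) (hM : M.det ≠ 0) :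
    ∀ H : Model (Fin n), y n (act M.mulVec H) = y n H := by
  refine Matrix.diagonal_transvection_induction_of_det_ne_zero
    (fun M => ∀ H : Model (Fin n), y n (act M.mulVec H) = y n H) M hM ?_ ?_ ?_
  · intro D hD H
    have h1 : ∀ i, D i = 1 := by
      intro i
      rcases zmod2_cases (D i) with h | h
      · exfalso
        apply hD
        rw [Matrix.det_diagonal]
        exact Finset.prod_eq_zero (mem_univ i) h
      · exact h
    have h2 : Matrix.diagonal D = 1 := by
      rw [← Matrix.diagonal_one]
      congr 1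
      funext i
      exact h1 i
    rw [h2]
    have : (1 : Matrix (Fin n) (Fin n) (ZMod 2)).mulVec = id := by
      funext a
      simp
    rw [this, act_id]
  · intro t H
    exact inv_transvection hy t H
  · intro A B _ _ hA hB H
    have : (A * B).mulVec = A.mulVec ∘ B.mulVec := by
      funext a
      simp [Matrix.mulVec_mulVec]
    rw [this, ← act_act _ _ (Matrix.mulVec_zero A), hB, hA]

lemma inv_linear {n : ℕ} (T : Vm n ≃ₗ[ZMod 2] Vm n) (H : Model (Fin n)) :
    y n (act T H) = y n H := by
  have h := inv_matrix hy (LinearMap.toMatrix' (T : Vm n →ₗ[ZMod 2] Vm n)) ?_ H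
  · have h2 : (LinearMap.toMatrix' (T : Vm n →ₗ[ZMod 2] Vm n)).mulVec = T := by
      funext a
      rw [LinearMap.toMatrix'_mulVec]
      rfl
    rwa [h2] at h
  · rw [LinearMap.det_toMatrix']
    exact (LinearEquiv.isUnit_det' T).ne_zero

end law

/-- the action of a linear automorphism as a permutation of the labelled models -/
def actEquiv {n : ℕ} (T : Vm n ≃ₗ[ZMod 2] Vm n) : Model (Fin n) ≃ Model (Fin n) where
  toFun := act T
  invFun := act T.symm
  left_inv H := by
    show act T.symm (act T H) = H
    rw [act_act _ _ (map_zero T)]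
    have : (T : Vm n → Vm n) ∘ T.symm = id := by funext a; simp
    rw [this, act_id]
  right_inv H := by
    show act T (act T.symm H) = H
    rw [act_act _ _ (map_zero T.symm)]
    have : (T.symm : Vm n → Vm n) ∘ T = id := by funext a; simp
    rw [this, act_id]

/-- the model induced by a tuple of vectors -/
def ip {k n : ℕ} (φ : Fin k → Vm n) (H : Model (Fin n)) : Model (Fin k) :=
  fun S => ext H (∑ i ∈ S.1, φ i)

lemma ind_eq_sum {n : ℕ} (S : Finset (Fin n)) : ind S = ∑ i ∈ S, (Pi.single i 1 : Vm n) := by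
  funext t
  rw [Finset.sum_apply]
  simp [ind, Pi.single_apply]

lemma exists_linear {k l : ℕ} (φ : Fin k → Vm (k + l)) (hφ : Indep φ) :
    ∃ T : Vm (k + l) ≃ₗ[ZMod 2] Vm (k + l),
      ∀ i : Fin k, T (Pi.single (Fin.castAdd l i) 1) = φ i := by
  have h1 : LinearIndependent (ZMod 2)
      (fun i : Fin k => (Pi.single (Fin.castAdd l i) 1 : Vm (k + l))) := by
    have := (Pi.basisFun (ZMod 2) (Fin (k + l))).linearIndependent
    have h2 := this.comp (Fin.castAdd l) (Fin.castAdd_injective k l)
    convert h2 using 1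
    funext i
    simp
  have h2 := (indep_iff φ).1 hφ
  obtain ⟨g, hg⟩ := Submodule.exists_linearEquiv_restrict_eq
    (h1.linearCombinationEquiv.symm ≪≫ₗ h2.linearCombinationEquiv)
  refine ⟨g, fun i => ?_⟩
  have h3 : ((h1.linearCombinationEquiv (Finsupp.single i 1) : _) : Vm (k + l)) =
      Pi.single (Fin.castAdd l i) 1 := by simp
  have h4 : ((h2.linearCombinationEquiv (Finsupp.single i 1) : _) : Vm (k + l)) = φ i := by simp
  rw [← h3, ← hg, ← h4]
  simp

section law2
variable {y : ∀ k : ℕ, Model (Fin k) → ℝ} (hy : Law y)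
include hy

open Classical in
lemma marginal {k l : ℕ} (F : Model (Fin k)) :
    (∑ H : Model (Fin (k + l)), if resL H = F then y (k + l) H else 0) = y k F := by
  have h := hy.sum_one l
  rw [← mul_one (y k F), ← h, Finset.mul_sum]
  simp only [← hy.prod]
  rw [Finset.sum_comm]
  refine Finset.sum_congr rfl fun H _ => ?_
  rw [Finset.sum_eq_single (resR H)]
  · by_cases h : resL H = F <;> simp [h]
  · intro G _ hG
    rw [if_neg]
    rintro ⟨-, h2⟩
    exact hG h2.symm
  · intro h
    exact absurd (mem_univ _) h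

open Classical in
lemma law_ip {k n : ℕ} (hk : k ≤ n) (φ : Fin k → Vm n) (hφ : Indep φ) (F : Model (Fin k)) :
    (∑ H : Model (Fin n), if ip φ H = F then y n H else 0) = y k F := by
  obtain ⟨l, rfl⟩ := Nat.exists_eq_add_of_le hk
  obtain ⟨T, hT⟩ := exists_linear φ hφ
  rw [← marginal hy (l := l) F]
  symm
  rw [← Equiv.sum_comp (actEquiv T)]
  refine Finset.sum_congr rfl fun H _ => ?_
  have h1 : resL (actEquiv T H) = ip φ H := by
    funext S
    show ext H (T (ind (S.1.map (Fin.castAddEmb l)))) = ext H (∑ i ∈ S.1, φ i)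
    congr 1
    rw [ind_eq_sum, map_sum, Finset.sum_map]
    refine Finset.sum_congr rfl fun i _ => ?_
    exact hT i
  have h2 : y (k + l) (actEquiv T H) = y (k + l) H := inv_linear hy T H
  rw [h1, h2]

open Classical in
lemma law_ip2 {k l n : ℕ} (hk : k + l ≤ n) (φ : Fin k → Vm n) (ψ : Fin l → Vm n)
    (h : Indep (Fin.append φ ψ)) (F : Model (Fin k)) (G : Model (Fin l)) :
    (∑ H : Model (Fin n), if ip φ H = F ∧ ip ψ H = G then y n H else 0) = y k F * y l G := by
  rw [← hy.prod]
  have h1 : ∀ K : Model (Fin (k + l)), (if resL K = F ∧ resR K = G then y (k + l) K else 0) =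
      ∑ H : Model (Fin n), if ip (Fin.append φ ψ) H = K ∧ (resL K = F ∧ resR K = G)
        then y n H else 0 := by
    intro K
    split_ifs with hK
    · rw [← law_ip hy hk _ h K]
      refine Finset.sum_congr rfl fun H _ => ?_
      simp [hK]
    · simp [hK]
  simp only [h1]
  rw [Finset.sum_comm]
  refine Finset.sum_congr rfl fun H _ => ?_
  have hL : resL (ip (Fin.append φ ψ) H) = ip φ H := by
    funext S
    show ext H (∑ i ∈ S.1.map (Fin.castAddEmb l), Fin.append φ ψ i) = ext H (∑ i ∈ S.1, φ i)
    congr 1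
    rw [Finset.sum_map]
    refine Finset.sum_congr rfl fun i _ => ?_
    exact Fin.append_left φ ψ i
  have hR : resR (ip (Fin.append φ ψ) H) = ip ψ H := by
    funext S
    show ext H (∑ i ∈ S.1.map (Fin.natAddEmb k), Fin.append φ ψ i) = ext H (∑ i ∈ S.1, ψ i)
    congr 1
    rw [Finset.sum_map]
    refine Finset.sum_congr rfl fun i _ => ?_
    exact Fin.append_right φ ψ i
  rw [Finset.sum_eq_single (ip (Fin.append φ ψ) H)]
  · simp [hL, hR]
  · intro K _ hK
    rw [if_neg]
    rintro ⟨h2, -⟩
    exact hK h2.symm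
  · intro h
    exact absurd (mem_univ _) h

end law2

end Pool.Agent.TH430.Lin
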