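import Pool.Agent.TH430.Lin.Approx

/-!
# Lineons: limits of the error terms
-/

set_option autoImplicit false

namespace Pool.Agent.TH430.Lin

open Finset Topology Filter

lemma tendsto_two_pow : Tendsto (fun m : ℕ => 2 ^ m) atTop (atTop : Filter ℕ) :=
  tendsto_pow_atTop_atTop_of_one_lt (by norm_num)

lemma tendsto_desc (k : ℕ) :
    Tendsto (fun m : ℕ => (((2 ^ m).descFactorial k : ℕ) : ℝ) / ((2 : ℝ) ^ m) ^ k) atTop (𝓝 1) := by
  have h := isEquivalent_descFactorial k
  have h1 : Tendsto (fun n : ℕ => ((n.descFactorial k : ℕ) : ℝ) / (n : ℝ) ^ k) atTop (𝓝 1) := by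
    rw [Asymptotics.isEquivalent_iff_tendsto_one] at h
    · exact h
    · filter_upwards [eventually_gt_atTop 0] with n hn
      positivity
  have h2 := h1.comp tendsto_two_pow
  refine h2.congr fun m => ?_
  simp

lemma tendsto_ind (k : ℕ) :
    Tendsto (fun m : ℕ => (indCount k m : ℝ) / ((2 : ℝ) ^ m) ^ k) atTop (𝓝 1) := by
  have h1 : ∀ i : Fin k, Tendsto (fun m : ℕ => (1 : ℝ) - 2 ^ i.val / 2 ^ m) atTop (𝓝 1) := by
    intro i
    have h2 : Tendsto (fun m : ℕ => (2 : ℝ) ^ i.val / 2 ^ m) atTop (𝓝 0) :=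
      tendsto_const_nhds.div_atTop (tendsto_pow_atTop_atTop_of_one_lt (by norm_num))
    simpa using (tendsto_const_nhds (x := (1 : ℝ))).sub h2
  have h3 : Tendsto (fun m : ℕ => ∏ i : Fin k, ((1 : ℝ) - 2 ^ i.val / 2 ^ m)) atTop (𝓝 1) := by
    have := tendsto_finsetProd (univ : Finset (Fin k)) (fun i _ => h1 i)
    simpa using this
  refine h3.congr' ?_
  filter_upwards [eventually_ge_atTop k] with m hm
  unfold indCount
  rw [Nat.cast_prod, ← Fin.prod_const k, ← Finset.prod_div_distrib]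
  refine Finset.prod_congr rfl fun i _ => ?_
  have : (2 : ℕ) ^ i.val ≤ 2 ^ m := Nat.pow_le_pow_right (by norm_num) (by omega)
  push_cast [this]
  have h2 : (2 : ℝ) ^ m ≠ 0 := by positivity
  field_simp

lemma indCount_pos {k m : ℕ} (h : k ≤ m) : 0 < indCount k m := by
  unfold indCount
  refine Finset.prod_pos fun i _ => ?_
  have : (2 : ℕ) ^ i.val < 2 ^ m := Nat.pow_lt_pow_right (by norm_num) (by omega)
  omega

/-- first error term -/
lemma tendsto_err1 (k l : ℕ) :
    Tendsto (fun m : ℕ => 1 - (((2 ^ m).descFactorial (k + l) : ℕ) : ℝ) /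
      (((2 ^ m).descFactorial k : ℕ) * ((2 ^ m).descFactorial l : ℕ))) atTop (𝓝 0) := by
  have h := (tendsto_desc (k + l)).div ((tendsto_desc k).mul (tendsto_desc l)) (by norm_num)
  have h2 := (tendsto_const_nhds (x := (1 : ℝ))).sub h
  simp only [mul_one, div_one, sub_self] at h2
  refine h2.congr fun m => ?_
  have : (2 : ℝ) ^ m ≠ 0 := by positivity
  simp only [Pi.div_apply, Pi.mul_apply]
  rw [pow_add]
  field_simp

/-- second error term -/
lemma tendsto_err2 (k : ℕ) :
    Tendsto (fun m : ℕ => 1 - (indCount k m : ℝ) / ((2 ^ m).descFactorial k : ℕ)) atTop (𝓝 0) := by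
  have h := (tendsto_ind k).div (tendsto_desc k) (by norm_num)
  have h2 := (tendsto_const_nhds (x := (1 : ℝ))).sub h
  simp only [div_one, sub_self] at h2
  refine h2.congr fun m => ?_
  have : (2 : ℝ) ^ m ≠ 0 := by positivity
  simp only [Pi.div_apply]
  field_simp

/-- third error term -/
lemma tendsto_err3 (k : ℕ) :
    Tendsto (fun m : ℕ => 1 - (indCount (k + k) m : ℝ) / ((indCount k m : ℝ) * indCount k m))
      atTop (𝓝 0) := by
  have h := (tendsto_ind (k + k)).div ((tendsto_ind k).mul (tendsto_ind k)) (by norm_num)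
  have h2 := (tendsto_const_nhds (x := (1 : ℝ))).sub h
  simp only [mul_one, div_one, sub_self] at h2
  refine h2.congr fun m => ?_
  have : (2 : ℝ) ^ m ≠ 0 := by positivity
  simp only [Pi.div_apply, Pi.mul_apply]
  rw [pow_add]
  field_simp

end Pool.Agent.TH430.Lin
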