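import Pool.Agent.TH430.Lin.Law

/-!
# Lineons: second moment argument
-/

set_option autoImplicit false

namespace Pool.Agent.TH430.Lin

open Finset Topology Filter

/-- the subset of `F_2^n` given by a labelled model on `Fin n` -/
def setOf' {n : ℕ} (H : Model (Fin n)) : Finset (Vm n) := univ.filter (fun a => ext H a = true)

lemma pull_setOf {k n : ℕ} (φ : Fin k ↪ Vm n) (H : Model (Fin n)) :
    pull φ (linModel (setOf' H)) = ip φ H := by
  funext S
  rw [pull_linModel]
  unfold ip setOf'
  simp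

open Classical in
/-- number of independent tuples with given induced model -/
noncomputable def cI {k n : ℕ} (F : Model (Fin k)) (H : Model (Fin n)) : ℕ :=
  (univ.filter (fun φ : Fin k → Vm n => Indep φ ∧ ip φ H = F)).card

lemma cI_eq {k n : ℕ} (F : Model (Fin k)) (H : Model (Fin n)) :
    cntI F (linModel (setOf' H)) = cI F H := by
  classical
  unfold cntI cI
  refine Finset.card_bij (fun φ _ => (φ : Fin k → Vm n)) ?_ ?_ ?_
  · intro φ hφ
    simp only [mem_filter, mem_univ, true_and] at hφ ⊢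
    rw [pull_setOf] at hφ
    exact hφ
  · intro φ _ ψ _ h
    exact DFunLike.coe_injective h
  · intro φ hφ
    simp only [mem_filter, mem_univ, true_and] at hφ
    refine ⟨⟨φ, hφ.1.injective⟩, ?_, rfl⟩
    simp only [mem_filter, mem_univ, true_and]
    rw [pull_setOf]
    exact hφ

lemma cI_le {k n : ℕ} (hk : k ≤ n) (F : Model (Fin k)) (H : Model (Fin n)) :
    cI F H ≤ indCount k n := by
  classical
  unfold cI
  rw [← card_indep hk]
  apply Finset.card_le_card
  intro φ hφ
  simp only [mem_filter, mem_univ, true_and] at hφ ⊢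
  exact hφ.1

lemma tt_close {k n : ℕ} (hk : k ≤ n) (F : Model (Fin k)) (H : Model (Fin n)) :
    |tt F (linModel (setOf' H)) - cI F H / indCount k n| ≤
      1 - (indCount k n : ℝ) / (2 ^ n).descFactorial k := by
  have h1 := cntI_le F (linModel (setOf' H))
  have h3 := cnt_le_cntI hk F (linModel (setOf' H))
  rw [cI_eq] at h1 h3
  have h4 := cI_le hk F H
  have hm : k ≤ 2 ^ n := hk.trans (Nat.lt_two_pow_self).le
  have hD : (0 : ℝ) < (2 ^ n).descFactorial k := by
    have := Nat.descFactorial_pos.2 hm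
    exact_mod_cast this
  have hI : (0 : ℝ) < indCount k n := by exact_mod_cast indCount_pos hk
  unfold tt
  rw [card_Vm]
  have h1' : (cI F H : ℝ) ≤ cnt F (linModel (setOf' H)) := by exact_mod_cast h1
  have h3' : (cnt F (linModel (setOf' H)) : ℝ) + indCount k n ≤
    cI F H + (2 ^ n).descFactorial k := by exact_mod_cast h3
  have h4' : (cI F H : ℝ) ≤ indCount k n := by exact_mod_cast h4
  set c : ℝ := (cI F H : ℝ)
  set a : ℝ := (cnt F (linModel (setOf' H)) : ℝ)
  set I : ℝ := (indCount k n : ℝ)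
  set D : ℝ := ((2 ^ n).descFactorial k : ℝ)
  have hc : 0 ≤ c := Nat.cast_nonneg _
  have hID : I ≤ D := by linarith
  rw [abs_le]
  constructor
  · have e1 : c / D ≤ a / D := by gcongr
    have e2 : c / I - c / D ≤ 1 - I / D := by
      have e3 : c / I - c / D = c / I * (1 - I / D) := by field_simp
      rw [e3]
      have e4 : c / I ≤ 1 := (div_le_one hI).2 h4'
      have e5 : 0 ≤ 1 - I / D := by rw [sub_nonneg]; exact (div_le_one hD).2 hID
      nlinarith
    linarith
  · have e1 : c / D ≤ c / I := div_le_div_of_nonneg_left hc hI hID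
    have e2 : a / D - c / D ≤ 1 - I / D := by
      rw [← sub_div, one_sub_div hD.ne']
      exact div_le_div_of_nonneg_right (by linarith) hD.le
    linarith

section law
variable {y : ∀ k : ℕ, Model (Fin k) → ℝ} (hy : Law y)
include hy

lemma moment1 {k n : ℕ} (hk : k ≤ n) (F : Model (Fin k)) :
    ∑ H : Model (Fin n), y n H * cI F H = indCount k n * y k F := by
  classical
  have h1 : ∀ H : Model (Fin n), y n H * cI F H =
      ∑ φ ∈ univ.filter (fun φ : Fin k → Vm n => Indep φ), if ip φ H = F then y n H else 0 := by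
    intro H
    unfold cI
    rw [← Finset.filter_filter, Finset.card_filter]
    push_cast
    rw [Finset.mul_sum]
    refine Finset.sum_congr rfl fun φ _ => ?_
    simp
  simp only [h1]
  rw [Finset.sum_comm, ← card_indep hk]
  rw [Finset.sum_congr rfl (g := fun _ => y k F)]
  · simp
  · intro φ hφ
    simp only [mem_filter, mem_univ, true_and] at hφ
    exact law_ip hy hk φ hφ F

lemma moment2 {k n : ℕ} (hk : k + k ≤ n) (F : Model (Fin k)) :
    ∑ H : Model (Fin n), y n H * (cI F H : ℝ) ^ 2 ≤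
      indCount (k + k) n * y k F ^ 2 + ((indCount k n : ℝ) ^ 2 - indCount (k + k) n) := by
  classical
  set I : Finset (Fin k → Vm n) := univ.filter (fun φ : Fin k → Vm n => Indep φ) with hI
  have hIc : I.card = indCount k n := card_indep (by omega)
  have h1 : ∀ H : Model (Fin n), y n H * (cI F H : ℝ) ^ 2 =
      ∑ p ∈ I ×ˢ I, if ip p.1 H = F ∧ ip p.2 H = F then y n H else 0 := by
    intro H
    have h2 : (cI F H : ℝ) = ∑ φ ∈ I, if ip φ H = F then 1 else 0 := by
      unfold cI
      rw [← Finset.filter_filter, Finset.card_filter]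
      push_cast
      rfl
    rw [h2, sq, Finset.sum_mul_sum, ← Finset.sum_product', Finset.mul_sum]
    refine Finset.sum_congr rfl fun p _ => ?_
    by_cases ha : ip p.1 H = F <;> by_cases hb : ip p.2 H = F <;> simp [ha, hb]
  simp only [h1]
  rw [Finset.sum_comm]
  set J : Finset ((Fin k → Vm n) × (Fin k → Vm n)) :=
    (I ×ˢ I).filter (fun p => Indep (Fin.append p.1 p.2)) with hJ
  have hsub : ∀ φ ψ : Fin k → Vm n, Indep (Fin.append φ ψ) → Indep φ ∧ Indep ψ := by
    intro φ ψ h
    constructor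
    · intro S hS h0
      apply h (S.map (Fin.castAddEmb k)) hS.map
      rw [Finset.sum_map, ← h0]
      exact Finset.sum_congr rfl fun i _ => Fin.append_left φ ψ i
    · intro S hS h0
      apply h (S.map (Fin.natAddEmb k)) hS.map
      rw [Finset.sum_map, ← h0]
      exact Finset.sum_congr rfl fun i _ => Fin.append_right φ ψ i
  have hJc : J.card = indCount (k + k) n := by
    rw [← card_indep hk]
    refine Finset.card_bij (fun p _ => Fin.append p.1 p.2) ?_ ?_ ?_
    · intro p hp
      simp only [hJ, mem_filter] at hp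
      simpa using hp.2
    · rintro ⟨a, b⟩ _ ⟨c, d⟩ _ h
      simp only at h
      have h3 : ∀ i, a i = c i := fun i => by
        have := congrFun h (Fin.castAdd k i)
        rwa [Fin.append_left, Fin.append_left] at this
      have h4 : ∀ i, b i = d i := fun i => by
        have := congrFun h (Fin.natAdd k i)
        rwa [Fin.append_right, Fin.append_right] at this
      rw [Prod.mk.injEq]
      exact ⟨funext h3, funext h4⟩
    · intro θ hθ
      simp only [mem_filter, mem_univ, true_and] at hθ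
      have h5 : Fin.append (fun i => θ (Fin.castAdd k i)) (fun i => θ (Fin.natAdd k i)) = θ := by
        exact Fin.append_castAdd_natAdd
      refine ⟨(fun i => θ (Fin.castAdd k i), fun i => θ (Fin.natAdd k i)), ?_, h5⟩
      simp only [hJ, hI, mem_filter, mem_product, mem_univ, true_and]
      rw [h5]
      exact ⟨hsub _ _ (by rw [h5]; exact hθ), hθ⟩
  rw [← Finset.sum_filter_add_sum_filter_not (I ×ˢ I) (fun p => Indep (Fin.append p.1 p.2))]
  refine add_le_add ?_ ?_
  · rw [← hJc, Finset.sum_congr rfl (g := fun _ => y k F ^ 2)]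
    · simp [hJ]
    · intro p hp
      simp only [mem_filter] at hp
      rw [law_ip2 hy hk _ _ hp.2, sq]
  · have hcard : (((I ×ˢ I).filter (fun p => ¬ Indep (Fin.append p.1 p.2))).card : ℝ) =
        (indCount k n : ℝ) ^ 2 - indCount (k + k) n := by
      have := Finset.card_filter_add_card_filter_not (s := I ×ˢ I)
        (fun p => Indep (Fin.append p.1 p.2))
      rw [Finset.card_product, hIc] at this
      rw [← hJc]
      have h6 : (J.card : ℝ) + ((I ×ˢ I).filter (fun p => ¬ Indep (Fin.append p.1 p.2))).card =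
        indCount k n * indCount k n := by exact_mod_cast this
      linarith
    rw [← hcard]
    have : ∀ p ∈ (I ×ˢ I).filter (fun p => ¬ Indep (Fin.append p.1 p.2)),
        (∑ H : Model (Fin n), if ip p.1 H = F ∧ ip p.2 H = F then y n H else 0) ≤ 1 := by
      intro p _
      rw [← hy.sum_one n]
      refine Finset.sum_le_sum fun H _ => ?_
      split_ifs
      · exact le_rfl
      · exact hy.nonneg _ _
    calc _ ≤ ∑ p ∈ (I ×ˢ I).filter (fun p => ¬ Indep (Fin.append p.1 p.2)), (1 : ℝ) :=
          Finset.sum_le_sum this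
      _ = _ := by simp

lemma le_one' (k : ℕ) (F : Model (Fin k)) : y k F ≤ 1 := by
  rw [← hy.sum_one k]
  exact Finset.single_le_sum (f := y k) (fun G _ => hy.nonneg k G) (mem_univ F)

lemma variance {k n : ℕ} (hk : k + k ≤ n) (F : Model (Fin k)) :
    ∑ H : Model (Fin n), y n H * ((cI F H : ℝ) / indCount k n - y k F) ^ 2 ≤
      1 - (indCount (k + k) n : ℝ) / ((indCount k n : ℝ) * indCount k n) := by
  have hI : (0 : ℝ) < indCount k n := by exact_mod_cast indCount_pos (show k ≤ n by omega)
  have h1 := moment1 hy (show k ≤ n by omega) F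
  have h2 := moment2 hy hk F
  have h3 := hy.sum_one n
  have hle := le_one' hy k F
  have h0 := hy.nonneg k F
  have expand : ∑ H : Model (Fin n), y n H * ((cI F H : ℝ) / indCount k n - y k F) ^ 2 =
      (∑ H : Model (Fin n), y n H * (cI F H : ℝ) ^ 2) / (indCount k n : ℝ) ^ 2 -
      2 * y k F * (∑ H : Model (Fin n), y n H * cI F H) / indCount k n +
      y k F ^ 2 * ∑ H : Model (Fin n), y n H := by
    rw [Finset.sum_div, Finset.mul_sum, Finset.sum_div, Finset.mul_sum, ← Finset.sum_sub_distrib,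
      ← Finset.sum_add_distrib]
    refine Finset.sum_congr rfl fun H _ => ?_
    field_simp
    ring
  rw [expand, h1, h3]
  set I : ℝ := (indCount k n : ℝ)
  set I2 : ℝ := (indCount (k + k) n : ℝ)
  set v := y k F
  have h4 : (∑ H : Model (Fin n), y n H * (cI F H : ℝ) ^ 2) / I ^ 2 ≤
      (I2 * v ^ 2 + (I ^ 2 - I2)) / I ^ 2 := by gcongr
  have h5 : 2 * v * (I * v) / I = 2 * v ^ 2 := by field_simp
  have h6 : (I2 * v ^ 2 + (I ^ 2 - I2)) / I ^ 2 = I2 / (I * I) * v ^ 2 + 1 - I2 / (I * I) := by
    field_simp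
    ring
  rw [h5]
  rw [h6] at h4
  have h7 : I2 / (I * I) ≤ 1 := by
    have h8 : 0 ≤ (∑ H : Model (Fin n), y n H * ((cI F H : ℝ) / I - v) ^ 2) :=
      Finset.sum_nonneg fun H _ => mul_nonneg (hy.nonneg _ _) (sq_nonneg _)
    by_contra hcon
    push Not at hcon
    have h9 : 0 < I * I := by positivity
    have hcount : indCount (k + k) n ≤ indCount k n * indCount k n := by
      classical
      rw [← card_indep hk, ← card_indep (show k ≤ n by omega), ← Finset.card_product]
      refine Finset.card_le_card_of_injOn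
        (fun θ => (fun i => θ (Fin.castAdd k i), fun i => θ (Fin.natAdd k i))) ?_ ?_
      · intro θ hθ
        simp only [coe_filter, mem_univ, true_and, Set.mem_ofPred_eq] at hθ
        simp only [coe_product, coe_filter, mem_univ, true_and, Set.mem_prod, Set.mem_ofPred_eq]
        constructor
        · intro S hS h0'
          apply hθ (S.map (Fin.castAddEmb k)) hS.map
          rw [Finset.sum_map, ← h0']
          rfl
        · intro S hS h0'
          apply hθ (S.map (Fin.natAddEmb k)) hS.map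
          rw [Finset.sum_map, ← h0']
          rfl
      · intro θ _ θ' _ h
        simp only [Prod.mk.injEq] at h
        funext i
        refine Fin.addCases (fun a => ?_) (fun b => ?_) i
        · exact congrFun h.1 a
        · exact congrFun h.2 b
    have h10 : I2 ≤ I * I := by
      show (indCount (k + k) n : ℝ) ≤ indCount k n * indCount k n
      exact_mod_cast hcount
    rw [lt_div_iff₀ h9] at hcon
    linarith
  nlinarith [sq_nonneg v]

lemma exists_H (J : Finset (Σ k : ℕ, Model (Fin k))) {δ : ℝ} (n : ℕ)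
    (g : (Σ k : ℕ, Model (Fin k)) → Model (Fin n) → ℝ) (hg : ∀ p ∈ J, ∀ H, 0 ≤ g p H)
    (hn1 : ∀ p ∈ J, ∑ H : Model (Fin n), y n H * g p H ≤ δ / (J.card + 1)) (hδ : 0 < δ) :
    ∃ H : Model (Fin n), ∀ p ∈ J, g p H < δ := by
  have hsum : ∑ H : Model (Fin n), y n H * ∑ p ∈ J, g p H < δ := by
    simp only [Finset.mul_sum]
    rw [Finset.sum_comm]
    have h1 : ∑ p ∈ J, ∑ H : Model (Fin n), y n H * g p H ≤ ∑ p ∈ J, δ / (J.card + 1) :=
      Finset.sum_le_sum hn1
    have h2 : ∑ p ∈ J, δ / ((J.card : ℝ) + 1) = J.card * (δ / (J.card + 1)) := by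
      rw [Finset.sum_const, nsmul_eq_mul]
    have h3 : (J.card : ℝ) * (δ / (J.card + 1)) < δ := by
      rw [← mul_div_assoc, div_lt_iff₀ (by positivity)]
      nlinarith
    linarith
  obtain ⟨H, hH⟩ : ∃ H : Model (Fin n), ∑ p ∈ J, g p H < δ := by
    by_contra hcon
    push Not at hcon
    have h4 : ∑ H : Model (Fin n), y n H * δ ≤ ∑ H : Model (Fin n), y n H * ∑ p ∈ J, g p H :=
      Finset.sum_le_sum fun H _ => mul_le_mul_of_nonneg_left (hcon H) (hy.nonneg _ _)
    rw [← Finset.sum_mul, hy.sum_one, one_mul] at h4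
    linarith
  exact ⟨H, fun p hp => lt_of_le_of_lt
    (Finset.single_le_sum (f := fun p => g p H) (fun q hq => hg q hq H) hp) hH⟩

omit hy in
lemma exists_n (J : Finset (Σ k : ℕ, Model (Fin k))) {δ ε : ℝ} (hδ : 0 < δ) (hε : 0 < ε) :
    ∃ n : ℕ, 1 ≤ n ∧ (∀ p ∈ J,
      1 - (indCount (p.1 + p.1) n : ℝ) / ((indCount p.1 n : ℝ) * indCount p.1 n) < δ) ∧
      (∀ p ∈ J, 1 - (indCount p.1 n : ℝ) / ((2 ^ n).descFactorial p.1 : ℕ) < ε) ∧
      (∀ p ∈ J, p.1 + p.1 ≤ n) := by
  have ev1 : ∀ᶠ n : ℕ in atTop, ∀ p ∈ J,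
      1 - (indCount (p.1 + p.1) n : ℝ) / ((indCount p.1 n : ℝ) * indCount p.1 n) < δ :=
    (Filter.eventually_all_finset J).2 fun p _ => (tendsto_err3 p.1).eventually_lt_const hδ
  have ev2 : ∀ᶠ n : ℕ in atTop, ∀ p ∈ J,
      1 - (indCount p.1 n : ℝ) / ((2 ^ n).descFactorial p.1 : ℕ) < ε :=
    (Filter.eventually_all_finset J).2 fun p _ => (tendsto_err2 p.1).eventually_lt_const hε
  have ev3 : ∀ᶠ n : ℕ in atTop, ∀ p ∈ J, p.1 + p.1 ≤ n :=
    (Filter.eventually_all_finset J).2 fun p _ => eventually_ge_atTop _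
  obtain ⟨n, hn1, hn2, hn3, hn4⟩ :=
    (ev1.and (ev2.and (ev3.and (eventually_ge_atTop 1)))).exists
  exact ⟨n, hn4, hn1, hn2, hn3⟩

lemma exists_good (J : Finset (Σ k : ℕ, Model (Fin k))) {ε : ℝ} (hε : 0 < ε) :
    ∃ n : ℕ, 1 ≤ n ∧ ∃ H : Model (Fin n), ∀ p ∈ J,
      |tt p.2 (linModel (setOf' H)) - y p.1 p.2| < ε := by
  have hε2 : 0 < (ε / 2) ^ 2 / ((J.card : ℝ) + 1) := by positivity
  obtain ⟨n, hn, hn1, hn2, hn3⟩ := exists_n J hε2 (half_pos hε)
  refine ⟨n, hn, ?_⟩
  obtain ⟨H, hH⟩ := exists_H hy J n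
    (fun p H => ((cI p.2 H : ℝ) / indCount p.1 n - y p.1 p.2) ^ 2) (fun p _ H => sq_nonneg _)
    (fun p hp => (variance hy (hn3 p hp) p.2).trans (hn1 p hp).le) (by positivity)
  refine ⟨H, fun p hp => ?_⟩
  have h2 : |(cI p.2 H : ℝ) / indCount p.1 n - y p.1 p.2| < ε / 2 :=
    abs_lt_of_sq_lt_sq (hH p hp) (half_pos hε).le
  have hk : p.1 ≤ n := le_trans (Nat.le_add_left _ _) (hn3 p hp)
  have h3 := tt_close hk p.2 H
  have h4 := hn2 p hp
  have h5 := abs_sub_le (tt p.2 (linModel (setOf' H))) ((cI p.2 H : ℝ) / indCount p.1 n)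
    (y p.1 p.2)
  linarith

end law

end Pool.Agent.TH430.Lin
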