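import Pool.Agent.TH430.Lin.Moment

/-!
# Lineons: lineons are exactly the points satisfying the constraints
-/

set_option autoImplicit false

namespace Pool.Agent.TH430.Lin

open Finset Topology Filter

/-- the labelled weights of a point of `[0,1]^𝓜` -/
noncomputable def yOf (x : IsoClass → Set.Icc (0 : ℝ) 1) (k : ℕ) (F : Model (Fin k)) : ℝ :=
  if h : 0 < k then (x ⟦⟨k, h, F⟩⟧ : ℝ) / (cls F).card else 1

lemma yOf_pos {k : ℕ} (h : 0 < k) (x : IsoClass → Set.Icc (0 : ℝ) 1) (F : Model (Fin k)) :
    (x ⟦⟨k, h, F⟩⟧ : ℝ) = (cls F).card * yOf x k F := by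
  unfold yOf
  rw [dif_pos h]
  have : ((cls F).card : ℝ) ≠ 0 := by exact_mod_cast (cls_pos F).ne'
  field_simp

lemma yOf_point {V : Type} [Fintype V] (N : Model V) (k : ℕ) (F : Model (Fin k)) :
    yOf (point N) k F = tt F N := by
  unfold yOf
  split_ifs with h
  · have : ((cls F).card : ℝ) ≠ 0 := by exact_mod_cast (cls_pos F).ne'
    show dens ⟨k, h, F⟩ N / (cls F).card = tt F N
    rw [dens_eq]
    field_simp
  · obtain rfl : k = 0 := by omega
    unfold tt cnt
    have h1 : (univ.filter (fun φ : Fin 0 ↪ V => pull φ N = F)) = univ := by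
      ext φ
      simp only [mem_filter, mem_univ, true_and, iff_true]
      funext S
      exact absurd S.2 (by simp [Finset.eq_empty_of_isEmpty S.1])
    classical
    have h2 : (univ.filter (fun φ : Fin 0 ↪ V => pull φ N = F)).card = 1 := by
      rw [h1, card_emb]
      simp
    simp only [Nat.descFactorial_zero, Nat.cast_one, div_one]
    rw [show (1 : ℝ) = ((1 : ℕ) : ℝ) by simp, ← h2]

lemma continuous_yOf (k : ℕ) (F : Model (Fin k)) : Continuous (fun x => yOf x k F) := by
  unfold yOf
  split_ifs with h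
  · exact (continuous_subtype_val.comp (continuous_apply _)).div_const _
  · exact continuous_const

/-- the set whose accumulation points are the lineons -/
def base : Set (IsoClass → Set.Icc (0 : ℝ) 1) :=
  {z | ∃ m : ℕ, 1 ≤ m ∧ ∃ A : Finset (Fin m → ZMod 2), z = point (linModel A)}

lemma closed_principle {x : IsoClass → Set.Icc (0 : ℝ) 1} (hx : IsLineon x)
    {g : (IsoClass → Set.Icc (0 : ℝ) 1) → ℝ} (hg : Continuous g) {e : ℕ → ℝ}
    (he : Tendsto e atTop (𝓝 0))
    (h : ∀ᶠ m in atTop, ∀ A : Finset (Vm m), |g (point (linModel A))| ≤ e m) : g x = 0 := by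
  classical
  by_contra hne
  have hpos : 0 < |g x| / 2 := by positivity
  obtain ⟨M, hM⟩ := Filter.eventually_atTop.1 (h.and (he.eventually_lt_const hpos))
  set S : Set (IsoClass → Set.Icc (0 : ℝ) 1) :=
    ⋃ m ∈ Set.Iio M, Set.range (fun A : Finset (Vm m) => point (linModel A)) with hS
  have hSf : S.Finite := by
    refine Set.Finite.biUnion (Set.finite_Iio M) fun m _ => ?_
    exact Set.finite_range _
  have hU : {z | |g x| / 2 < |g z|} ∩ (S \ {x})ᶜ ∈ 𝓝 x := by
    refine Filter.inter_mem ?_ ?_
    · have : IsOpen {z | |g x| / 2 < |g z|} := isOpen_lt continuous_const hg.abs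
      refine this.mem_nhds ?_
      show |g x| / 2 < |g x|
      linarith
    · have hcl : IsClosed (S \ {x}) := (hSf.subset Set.sdiff_subset).isClosed
      exact hcl.isOpen_compl.mem_nhds (by simp)
  obtain ⟨z, ⟨⟨hz1, hz2⟩, m, hm, A, hzA⟩, hzx⟩ := accPt_iff_nhds.1 hx _ hU
  by_cases hmM : m < M
  · apply hz2
    refine ⟨?_, hzx⟩
    rw [hS, Set.mem_iUnion₂]
    exact ⟨m, hmM, A, hzA.symm⟩
  · obtain ⟨h1, h2⟩ := hM m (by omega)
    have h3 := h1 A
    rw [← hzA] at h3
    have h4 : |g x| / 2 < |g z| := hz1
    linarith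

theorem law_of_isLineon {x : IsoClass → Set.Icc (0 : ℝ) 1} (hx : IsLineon x) :
    Law (yOf x) := by
  classical
  refine ⟨?_, ?_, ?_, ?_⟩
  · intro k F
    unfold yOf
    split_ifs
    · exact div_nonneg (x _).2.1 (Nat.cast_nonneg _)
    · exact zero_le_one
  · intro k
    have h := closed_principle hx (g := fun x => ∑ F : Model (Fin k), yOf x k F - 1)
      ((continuous_finsetSum _ fun F _ => continuous_yOf k F).sub continuous_const)
      (e := fun _ => 0) tendsto_const_nhds ?_
    · linarith
    · filter_upwards [tendsto_two_pow.eventually_ge_atTop k] with m hm A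
      simp only [yOf_point]
      rw [sum_tt k _ (by rw [card_Vm]; exact hm)]
      simp
  · intro k i j hij F
    have h := closed_principle hx (g := fun x => yOf x k (tw i j hij F) - yOf x k F)
      ((continuous_yOf k _).sub (continuous_yOf k F)) (tendsto_err2 k) ?_
    · linarith
    · filter_upwards [eventually_ge_atTop k] with m hm A
      simp only [yOf_point]
      exact tw_approx hm hij F A
  · intro k l F G
    have h := closed_principle hx
      (g := fun x => (∑ H : Model (Fin (k + l)), if resL H = F ∧ resR H = G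
        then yOf x (k + l) H else 0) - yOf x k F * yOf x l G)
      (Continuous.sub (continuous_finsetSum _ fun H _ => by
        split_ifs
        · exact continuous_yOf _ H
        · exact continuous_const) ((continuous_yOf k F).mul (continuous_yOf l G)))
      (tendsto_err1 k l) ?_
    · have h2 : (∑ H : Model (Fin (k + l)), if resL H = F ∧ resR H = G
        then yOf x (k + l) H else 0) = yOf x k F * yOf x l G := by linarith
      convert h2
    · filter_upwards [tendsto_two_pow.eventually_ge_atTop (k + l)] with m hm A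
      simp only [yOf_point]
      have := prod_approx F G (linModel A) (by rw [card_Vm]; exact hm)
      rw [card_Vm] at this
      convert this

lemma exists_eps {ι : Type} (I : Finset ι) (e : ι → ℝ) (he : ∀ i, 0 < e i) :
    ∃ ε : ℝ, 0 < ε ∧ ∀ i ∈ I, ε ≤ e i := by
  classical
  induction I using Finset.induction_on with
  | empty => exact ⟨1, one_pos, by simp⟩
  | insert a s _ ih =>
    obtain ⟨ε, h1, h2⟩ := ih
    refine ⟨min ε (e a), lt_min h1 (he a), fun i hi => ?_⟩
    rcases Finset.mem_insert.1 hi with rfl | hi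
    · exact min_le_right _ _
    · exact (min_le_left _ _).trans (h2 i hi)

theorem isLineon_of_law {x : IsoClass → Set.Icc (0 : ℝ) 1} (hx : Law (yOf x)) :
    IsLineon x := by
  classical
  unfold IsLineon
  rw [accPt_iff_nhds]
  intro U hU
  rw [nhds_pi, Filter.mem_pi'] at hU
  obtain ⟨I, t, ht, htU⟩ := hU
  have h1 : ∀ i : IsoClass, ∃ e : ℝ, 0 < e ∧ ∀ z : Set.Icc (0 : ℝ) 1, |(z : ℝ) - x i| < e →
      z ∈ t i := by
    intro i
    obtain ⟨e, he, hb⟩ := Metric.mem_nhds_iff.1 (ht i)
    refine ⟨e, he, fun z hz => hb ?_⟩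
    rw [Metric.mem_ball, Subtype.dist_eq, Real.dist_eq]
    exact hz
  choose e he het using h1
  have hrep : ∀ i : IsoClass, ∃ M : FinModel, (⟦M⟧ : IsoClass) = i := fun i => Quotient.exists_rep i
  choose rep hrep using hrep
  obtain ⟨ε, hε, hεI⟩ := exists_eps I (fun i => e i / (cls (rep i).E).card) (fun i =>
    div_pos (he i) (by exact_mod_cast cls_pos _))
  obtain ⟨n, hn, H, hH⟩ := exists_good hx (I.image (fun i => ⟨(rep i).n, (rep i).E⟩)) hε
  refine ⟨point (linModel (setOf' H)), ⟨htU ?_, n, hn, setOf' H, rfl⟩, ?_⟩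
  · intro i hi
    apply het i
    have h2 := hH ⟨(rep i).n, (rep i).E⟩ (Finset.mem_image_of_mem _ hi)
    have h3 := hεI i hi
    have hc : (0 : ℝ) < (cls (rep i).E).card := by exact_mod_cast cls_pos _
    have h4 : (x i : ℝ) = (cls (rep i).E).card * yOf x (rep i).n (rep i).E := by
      conv_lhs => rw [← hrep i]
      exact yOf_pos (rep i).pos x (rep i).E
    have h5 : ((point (linModel (setOf' H)) i : Set.Icc (0 : ℝ) 1) : ℝ) =
        (cls (rep i).E).card * tt (rep i).E (linModel (setOf' H)) := by
      conv_lhs => rw [← hrep i]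
      exact dens_eq (rep i).pos (rep i).E _
    rw [h4, h5, ← mul_sub, abs_mul, abs_of_pos hc]
    calc _ < (cls (rep i).E).card * ε := by
          exact mul_lt_mul_of_pos_left h2 hc
      _ ≤ e i := by
          rw [le_div_iff₀ hc] at h3
          linarith
  · intro hxz
    have h6 := hx.sum_one (2 ^ n + 1)
    rw [← hxz] at h6
    simp only [yOf_point] at h6
    rw [Finset.sum_eq_zero] at h6
    · exact zero_ne_one h6
    · intro F _
      apply tt_large
      rw [card_Vm]
      omega

theorem isLineon_iff (x : IsoClass → Set.Icc (0 : ℝ) 1) : IsLineon x ↔ Law (yOf x) :=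
  ⟨law_of_isLineon, isLineon_of_law⟩

end Pool.Agent.TH430.Lin
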